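import Pool.Agent.Helper91_EU.BotMain

/-! # BOT, assembly -/

open Set Metric Topology unitInterval

noncomputable section

namespace Pool.Agent.EU.H91

universe u v

variable {X : Type u} [MetricSpace X] {ι : Type v} {𝓔 : EdgeSys X ι}

/-- points of `Y S` in the closure of the edges of `S` are ground points -/
theorem RY_G {S : Set ι} {x : X} (h1 : x ∈ 𝓔.R S) (h2 : x ∈ 𝓔.Y S) : x ∈ 𝓔.G := by
  rw [mem_G_iff]
  intro j hj
  have hjS : j ∉ S := fun h => (mem_Y_iff 𝓔 S x).1 h2 j h hj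
  obtain ⟨z, hz1, hz2⟩ := mem_closure_iff.1 h1 _ (isOpen_o 𝓔 j) hj
  simp only [mem_iUnion] at hz2
  obtain ⟨i, hi, hz2⟩ := hz2
  exact Set.disjoint_left.1 (o_disj 𝓔 (fun hh => hjS (hh ▸ hi) : i ≠ j)) hz2 hz1

namespace CellSys

variable {S : Set ι} {ε : ℝ} (K : CellSys 𝓔 S ε)

open Classical in
/-- all walks -/
def C0 (V : Finset X) (J : Finset ι) (M : Multiset (X × X)) : Multiset (TW X ι) :=
  J.val.map (K.ew V) + (((K.W ×ˢ K.W).filter (fun p => K.Adj p.1 p.2)).val + M).map jw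

theorem mem_C0 (V : Finset X) (J : Finset ι) (M : Multiset (X × X))
    (hM : ∀ p ∈ M, K.Adj p.1 p.2) (w : TW X ι) (hw : w ∈ K.C0 V J M) :
    (∃ i ∈ J, w = K.ew V i) ∨ (∃ p : X × X, K.Adj p.1 p.2 ∧ w = jw p) := by
  classical
  unfold C0 at hw
  rcases Multiset.mem_add.1 hw with h | h
  · obtain ⟨i, hi, rfl⟩ := Multiset.mem_map.1 h
    exact Or.inl ⟨i, hi, rfl⟩
  · obtain ⟨p, hp, rfl⟩ := Multiset.mem_map.1 h
    rcases Multiset.mem_add.1 hp with h | h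
    · have : p ∈ (K.W ×ˢ K.W).filter (fun p => K.Adj p.1 p.2) := h
      rw [Finset.mem_filter] at this
      exact Or.inr ⟨p, this.2, rfl⟩
    · exact Or.inr ⟨p, hM p h, rfl⟩

theorem ew_mem_C0 (V : Finset X) (J : Finset ι) (M : Multiset (X × X)) {i : ι} (hi : i ∈ J) :
    K.ew V i ∈ K.C0 V J M :=
  Multiset.mem_add.2 (Or.inl (Multiset.mem_map.2 ⟨i, hi, rfl⟩))

theorem jw_mem_C0 (V : Finset X) (J : Finset ι) (M : Multiset (X × X)) {p : X × X}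
    (hp : K.Adj p.1 p.2) : jw p ∈ K.C0 V J M := by
  classical
  refine Multiset.mem_add.2 (Or.inr (Multiset.mem_map.2 ⟨p, Multiset.mem_add.2 (Or.inl ?_), rfl⟩))
  have hW := K.adj_W hp
  have : p ∈ (K.W ×ˢ K.W).filter (fun p => K.Adj p.1 p.2) := by
    rw [Finset.mem_filter, Finset.mem_product]
    exact ⟨hW, hp⟩
  exact this

theorem items_C0 (V : Finset X) (J : Finset ι) (M : Multiset (X × X)) :
    ((K.C0 V J M).map (fun w => (items w.2.1 : Multiset (ι ⊕ ℕ)))).sum = J.val.map Sum.inl := by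
  classical
  unfold C0
  rw [Multiset.map_add, Multiset.sum_add, Multiset.map_map, Multiset.map_map]
  have h1 : J.val.map ((fun w => (items w.2.1 : Multiset (ι ⊕ ℕ))) ∘ K.ew V) =
      (J.val.map Sum.inl).map (fun x => ({x} : Multiset (ι ⊕ ℕ))) := by
    rw [Multiset.map_map]
    apply Multiset.map_congr rfl
    intro i _
    simp only [Function.comp]
    rw [K.items_ew V i]
    rfl
  have h2 : (Multiset.map ((fun w => (items w.2.1 : Multiset (ι ⊕ ℕ))) ∘ (jw : X × X → TW X ι))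
      (((K.W ×ˢ K.W).filter (fun p => K.Adj p.1 p.2)).val + M)).sum = 0 := by
    rw [Multiset.sum_eq_zero_iff]
    intro x hx
    obtain ⟨p, _, rfl⟩ := Multiset.mem_map.1 hx
    rfl
  rw [h1, h2, Multiset.sum_map_singleton, add_zero]

/-- one step of a chain -/
theorem step_walk (V : Finset X) (J : Finset ι) (M : Multiset (X × X)) (hV : V ⊆ K.Vs)
    {r η : ℝ} (hε : 0 ≤ ε) (hεη : ε ≤ η) (hεη2 : 2 * ε ≤ η) (hηr : 2 * η ≤ r)
    (hBig : 𝓔.BigEnds S (↑V) r)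
    (hJ : ∀ i ∈ J, i ∉ S ∧ 𝓔.φ i 0 ∈ K.D) (hJ1 : ∀ i, i ∉ S → ¬ Small η (𝓔.c i) → i ∈ J)
    (hJ3 : ∀ i, i ∉ S → 𝓔.φ i 0 ∈ K.D → Small η (𝓔.c i) → ∃ j ∈ J, Small η (𝓔.c j) ∧
        K.q (𝓔.φ j 0) = K.q (𝓔.φ i 0) ∧ K.q (𝓔.φ j 1) = K.q (𝓔.φ i 1))
    {C : Set X} (hCD : ∀ z ∈ C, z ∈ 𝓔.G → z ∈ K.D) {x y : X} (hx : x ∉ K.Vs) (h : K.Rel C x y) :
    ∃ w ∈ K.C0 V J M, ((w.1 = x ∧ w.2.2 = y) ∨ (w.1 = y ∧ w.2.2 = x)) ∧
      ∀ z ∈ 𝓔.tsup w, ∃ c ∈ C, dist z c ≤ r + η := by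
  obtain ⟨⟨cx, hcx, hcxC⟩, ⟨cy, hcy, hcyC⟩, h3⟩ := h
  rcases h3 with h | ⟨i, hiS, h0, h1, hor⟩
  · refine ⟨jw (x, y), K.jw_mem_C0 V J M h, Or.inl ⟨rfl, rfl⟩, ?_⟩
    intro z hz
    rw [tsup_jw] at hz
    have hW := K.adj_W h
    rcases hz with hz | hz
    · refine ⟨cx, hcxC, ?_⟩
      have : dist x cx ≤ ε := K.qsmall _ (K.WD _ hW.1) _ hcx.1 (by rw [K.qq _ hW.1, hcx.2])
      rw [hz]
      change dist x cx ≤ _
      linarith
    · refine ⟨cy, hcyC, ?_⟩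
      have : dist y cy ≤ ε := K.qsmall _ (K.WD _ hW.2) _ hcy.1 (by rw [K.qq _ hW.2, hcy.2])
      rw [hz]
      change dist y cy ≤ _
      linarith
  · have h0D : 𝓔.φ i 0 ∈ K.D := hCD _ h0 (φ0_mem_G 𝓔 i)
    have h1D : 𝓔.φ i 1 ∈ K.D := hCD _ h1 (φ1_mem_G 𝓔 i)
    -- the edge is small
    have hnV : ¬ (𝓔.φ i 0 ∈ V ∧ 𝓔.φ i 1 ∈ V) := by
      rintro ⟨a, b⟩
      rcases hor with ⟨e, _⟩ | ⟨_, e⟩
      · rw [K.q_of_Vs (hV a)] at e
        exact hx (e ▸ hV a)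
      · rw [K.q_of_Vs (hV b)] at e
        exact hx (e ▸ hV b)
    by_cases hiJ : i ∈ J
    · have hsm : Small r (𝓔.c i) := by
        by_contra hn
        exact hnV (hBig i hiS hn)
      refine ⟨K.ew V i, K.ew_mem_C0 V J M hiJ, ?_, ?_⟩
      · rw [K.ew_fst V hV, K.ew_snd V hV]
        rcases hor with ⟨a, b⟩ | ⟨a, b⟩
        · exact Or.inl ⟨a, b⟩
        · exact Or.inr ⟨a, b⟩
      · intro z hz
        obtain ⟨c, hc, hzc⟩ := K.tsup_ew V i h0D h1D hε z hz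
        refine ⟨𝓔.φ i 0, h0, ?_⟩
        have := hsm c hc _ (φ0_mem_c 𝓔 i)
        calc dist z (𝓔.φ i 0) ≤ dist z c + dist c (𝓔.φ i 0) := dist_triangle _ _ _
          _ ≤ r + η := by linarith
    · have hsm : Small η (𝓔.c i) := by
        by_contra hn
        exact hiJ (hJ1 i hiS hn)
      obtain ⟨j, hjJ, hjs, hj0, hj1⟩ := hJ3 i hiS h0D hsm
      obtain ⟨hjS, hj0D⟩ := hJ j hjJ
      have hj1D := (K.edge_D hjS hj0D).1
      refine ⟨K.ew V j, K.ew_mem_C0 V J M hjJ, ?_, ?_⟩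
      · rw [K.ew_fst V hV, K.ew_snd V hV, hj0, hj1]
        rcases hor with ⟨a, b⟩ | ⟨a, b⟩
        · exact Or.inl ⟨a, b⟩
        · exact Or.inr ⟨a, b⟩
      · intro z hz
        obtain ⟨c, hc, hzc⟩ := K.tsup_ew V j hj0D hj1D hε z hz
        refine ⟨𝓔.φ i 0, h0, ?_⟩
        have e1 := hjs c hc _ (φ0_mem_c 𝓔 j)
        have e2 : dist (𝓔.φ j 0) (𝓔.φ i 0) ≤ ε := K.qsmall _ hj0D _ h0D hj0
        calc dist z (𝓔.φ i 0) ≤ dist z c + dist c (𝓔.φ j 0) + dist (𝓔.φ j 0) (𝓔.φ i 0) :=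
              dist_triangle4 _ _ _ _
          _ ≤ r + η := by linarith

/-- chains to special points -/
theorem chain_walk (hN : 𝓔.NullStmt) (V : Finset X) (J : Finset ι) (M : Multiset (X × X))
    (hV : V ⊆ K.Vs)
    {r η : ℝ} (hε : 0 ≤ ε) (hεη : ε ≤ η) (hεη2 : 2 * ε ≤ η) (hηr : 2 * η ≤ r)
    (hBig : 𝓔.BigEnds S (↑V) r)
    (hJ : ∀ i ∈ J, i ∉ S ∧ 𝓔.φ i 0 ∈ K.D) (hJ1 : ∀ i, i ∉ S → ¬ Small η (𝓔.c i) → i ∈ J)
    (hJ3 : ∀ i, i ∉ S → 𝓔.φ i 0 ∈ K.D → Small η (𝓔.c i) → ∃ j ∈ J, Small η (𝓔.c j) ∧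
        K.q (𝓔.φ j 0) = K.q (𝓔.φ i 0) ∧ K.q (𝓔.φ j 1) = K.q (𝓔.φ i 1))
    {C : Set X} (hC : IsPreconnected C) (hCY : C ⊆ 𝓔.Y S) (hCs : Small r C) {u b : X}
    (hu : u ∈ K.W) (huC : u ∈ C) (hb : b ∈ K.Vs) (hbC : b ∈ C) :
    ∃ a ∈ K.Vs, ∃ l, EdgeSys.WChain (K.C0 V J M) u l a ∧
      Small (16 * r) ({u} ∪ {x | ∃ w ∈ l, x ∈ 𝓔.tsup w}) := by
  have huD := K.WD u hu
  have hCD : ∀ z ∈ C, z ∈ 𝓔.G → z ∈ K.D := by
    intro z hz hzG
    refine K.Dsat u huD z hzG ?_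
    exact subset_comp 𝓔 hC hCY huC (mem_comp_self 𝓔 (hCY huC)) hz
  have hbD := K.WD b (K.VsW b hb)
  have hreach := K.reach hN hC hCY huD huC hbC (K.DG hbD)
  rw [K.qq u hu, K.q_of_Vs hb] at hreach
  have key : ∀ x, Relation.ReflTransGen (K.Rel C) x b → ∃ a ∈ K.Vs, ∃ l,
      EdgeSys.WChain (K.C0 V J M) x l a ∧ ∀ w ∈ l, ∀ z ∈ 𝓔.tsup w, ∃ c ∈ C, dist z c ≤ r + η := by
    intro x hx
    induction hx using Relation.ReflTransGen.head_induction_on with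
    | refl => exact ⟨b, hb, [], EdgeSys.WChain.nil b, by simp⟩
    | @head x y hxy _ ih =>
      by_cases hxV : x ∈ K.Vs
      · exact ⟨x, hxV, [], EdgeSys.WChain.nil x, by simp⟩
      · obtain ⟨a, ha, l, hl1, hl2⟩ := ih
        obtain ⟨w, hw, hor, hws⟩ := K.step_walk V J M hV hε hεη hεη2 hηr hBig hJ hJ1 hJ3 hCD hxV hxy
        refine ⟨a, ha, w :: l, ?_, ?_⟩
        · rcases hor with ⟨e1, e2⟩ | ⟨e1, e2⟩
          · rw [← e1]
            exact EdgeSys.WChain.fwd w l a hw (e2 ▸ hl1)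
          · rw [← e2]
            exact EdgeSys.WChain.bwd w l a hw (e1 ▸ hl1)
        · intro w' hw'
          rcases List.mem_cons.1 hw' with rfl | hw'
          · exact hws
          · exact hl2 w' hw'
  obtain ⟨a, ha, l, hl1, hl2⟩ := key u hreach
  refine ⟨a, ha, l, hl1, ?_⟩
  have hnear : ∀ z ∈ ({u} ∪ {x | ∃ w ∈ l, x ∈ 𝓔.tsup w} : Set X), ∃ c ∈ C, dist z c ≤ r + η := by
    intro z hz
    rcases hz with hz | ⟨w, hw, hz⟩
    · rw [mem_singleton_iff.1 hz]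
      exact ⟨u, huC, by rw [dist_self]; linarith⟩
    · exact hl2 w hw z hz
  intro y hy z hz
  obtain ⟨c, hc, h1⟩ := hnear y hy
  obtain ⟨c', hc', h2⟩ := hnear z hz
  calc dist y z ≤ dist y c + dist c c' + dist c' z := dist_triangle4 _ _ _ _
    _ ≤ 16 * r := by
        have := hCs c hc c' hc'
        rw [dist_comm c' z]
        linarith

end CellSys

theorem bot [CompactSpace X] [ConnectedSpace X] (𝓔 : EdgeSys X ι) (hN : 𝓔.NullStmt)
    (hY2 : 𝓔.Y2Stmt) (hY3 : 𝓔.Y3Stmt) (hPC : 𝓔.ParCompStmt) : 𝓔.BotStmt := by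
  classical
  intro S V d r η F hThin hVne hVG hPar hd hRoot hBig hr hη hηr _
  have hYV : ∀ v ∈ V, v ∈ 𝓔.comp S v := fun v hv => mem_comp_self 𝓔 (G_subset_Y 𝓔 S (hVG v hv))
  set ZZ : Set (Set X) := {Z | ∃ x ∈ 𝓔.Y S, Z = 𝓔.comp S x ∧ ¬ Small η Z} ∪
    (𝓔.comp S '' (↑V : Set X)) with hZZ
  have hZZf : ZZ.Finite := (hY2 S hThin η hη).union (V.finite_toSet.image _)
  have hZc : ∀ Z ∈ ZZ, ∃ x ∈ 𝓔.Y S, Z = 𝓔.comp S x := by
    rintro Z (⟨x, h1, h2, _⟩ | ⟨v, hv, rfl⟩)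
    · exact ⟨x, h1, h2⟩
    · exact ⟨v, G_subset_Y 𝓔 S (hVG v hv), rfl⟩
  -- components missing V meet R S
  have hmiss : ∀ Z ∈ ZZ, (∀ v ∈ V, v ∉ Z) → ∃ p, p ∈ Z ∧ p ∈ 𝓔.R S := by
    intro Z hZ hZV
    obtain ⟨x, hx, rfl⟩ := hZc Z hZ
    have hSne : S.Nonempty := by
      by_contra hn
      rw [Set.not_nonempty_iff_eq_empty] at hn
      obtain ⟨v, hv⟩ := hVne
      apply hZV v hv
      have hYu : 𝓔.Y S = univ := by
        rw [hn]
        unfold EdgeSys.Y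
        simp
      change v ∈ connectedComponentIn (𝓔.Y S) x
      rw [hYu]
      exact isPreconnected_univ.subset_connectedComponentIn (mem_univ x) (subset_univ _) (mem_univ v)
    obtain ⟨p, hp1, hp2⟩ := hY3 S hSne x hx
    exact ⟨p, hp1, hp2⟩
  let pz : Set X → X := fun Z => if h : ∃ p, p ∈ Z ∧ p ∈ 𝓔.R S then h.choose else hVne.choose
  have hpz : ∀ Z ∈ ZZ, (∀ v ∈ V, v ∉ Z) → pz Z ∈ Z ∧ pz Z ∈ 𝓔.R S := by
    intro Z hZ hZV
    have h := hmiss Z hZ hZV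
    have : pz Z = h.choose := dif_pos h
    rw [this]
    exact h.choose_spec
  have hPf : (pz '' {Z | Z ∈ ZZ ∧ ∀ v ∈ V, v ∉ Z}).Finite :=
    (hZZf.subset (fun Z hZ => hZ.1)).image _
  set P : Finset X := hPf.toFinset with hPdef
  have hPmem : ∀ p ∈ P, ∃ Z ∈ ZZ, (∀ v ∈ V, v ∉ Z) ∧ p ∈ Z ∧ p ∈ 𝓔.R S ∧ p ∈ 𝓔.G ∧
      𝓔.comp S p = Z ∧ p = pz Z := by
    intro p hp
    rw [hPdef, Set.Finite.mem_toFinset] at hp
    obtain ⟨Z, ⟨hZ, hZV⟩, rfl⟩ := hp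
    obtain ⟨h1, h2⟩ := hpz Z hZ hZV
    obtain ⟨x, hx, hZx⟩ := hZc Z hZ
    have h3 : pz Z ∈ 𝓔.comp S x := hZx ▸ h1
    have hcomp : 𝓔.comp S (pz Z) = Z := by
      exact (comp_eq 𝓔 h3).symm.trans hZx.symm
    have hG : pz Z ∈ 𝓔.G := RY_G h2 (comp_subset_Y 𝓔 S x h3)
    exact ⟨Z, hZ, hZV, h1, h2, hG, hcomp, rfl⟩
  have hPV : ∀ p ∈ P, p ∉ V := by
    intro p hp hpV
    obtain ⟨Z, _, hZV, hpZ, _⟩ := hPmem p hp
    exact hZV p hpV hpZ
  obtain ⟨K, hKV, hKD⟩ := exists_cells 𝓔 S ZZ hZZf hZc (V ∪ P) (by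
    intro v hv
    rcases Finset.mem_union.1 hv with h | h
    · exact ⟨hVG v h, Or.inr ⟨v, h, rfl⟩⟩
    · obtain ⟨Z, hZ, _, _, _, hG, hcomp, _⟩ := hPmem v h
      exact ⟨hG, hcomp ▸ hZ⟩) (η / 4) (by positivity)
  have hVs : V ⊆ K.Vs := by rw [hKV]; exact Finset.subset_union_left
  have hPs : P ⊆ K.Vs := by rw [hKV]; exact Finset.subset_union_right
  have hVsc : ∀ v ∈ K.Vs, v ∈ V ∨ v ∈ P := by
    intro v hv
    rw [hKV] at hv
    exact Finset.mem_union.1 hv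
  have hbigD : ∀ i, i ∉ S → ¬ Small η (𝓔.c i) → 𝓔.φ i 0 ∈ K.D := by
    intro i hi hn
    rw [hKD]
    have hY0 := G_subset_Y 𝓔 S (φ0_mem_G 𝓔 i)
    refine ⟨φ0_mem_G 𝓔 i, Or.inl ⟨_, hY0, rfl, ?_⟩⟩
    intro hs
    apply hn
    have hc : 𝓔.c i ⊆ 𝓔.comp S (𝓔.φ i 0) :=
      subset_comp 𝓔 (isPreconnected_c 𝓔 i) (c_subset_Y 𝓔 hi) (φ0_mem_c 𝓔 i) (mem_comp_self 𝓔 hY0)
    exact Small.mono hs le_rfl hc
  obtain ⟨J, hJ, hJ1, hJ2, hJ3⟩ := K.exists_J hN hη hbigD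
  obtain ⟨M, hM1, hM2⟩ := tjoin K.Adj (fun a b h => K.adj_symm h) K.W
    (fun v => EdgeSys.degW (J.val.map (K.ew V)) v + d v)
    (K.class_even hPC V d hVG hPar hd hVs J hJ hJ2)
  have hε : (0 : ℝ) ≤ η / 4 := by positivity
  have hεη : η / 4 ≤ η := by linarith
  have hεη2 : 2 * (η / 4) ≤ η := by linarith
  have hηr' : 2 * η ≤ r := by linarith
  have hchain : ∀ u ∈ K.W, u ∉ K.Vs → ∃ a, (a ∈ V ∨ a ∈ P) ∧ ∃ l,
      EdgeSys.WChain (K.C0 V J M) u l a ∧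
      Small (16 * r) ({u} ∪ {x | ∃ w ∈ l, x ∈ 𝓔.tsup w}) := by
    intro u hu huV
    have huD := K.WD u hu
    have huG := K.DG huD
    rcases hRoot u huG with ⟨C, hCY, hCp, huC, ⟨v, hv, hvC⟩, hCs⟩ | ⟨hmissV, hCs⟩
    · obtain ⟨a, ha, l, h1, h2⟩ := K.chain_walk hN V J M hVs hε hεη hεη2 hηr' hBig hJ hJ1 hJ3
        hCp hCY hCs hu huC (hVs hv) hvC
      exact ⟨a, hVsc a ha, l, h1, h2⟩
    · have hZ : 𝓔.comp S u ∈ ZZ := by
        rw [hKD] at huD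
        exact huD.2
      have hmV : ∀ v ∈ V, v ∉ 𝓔.comp S u := fun v hv => hmissV v hv
      have hp := hpz _ hZ hmV
      have hpP : pz (𝓔.comp S u) ∈ P := by
        rw [hPdef, Set.Finite.mem_toFinset]
        exact ⟨_, ⟨hZ, hmV⟩, rfl⟩
      obtain ⟨a, ha, l, h1, h2⟩ := K.chain_walk hN V J M hVs hε hεη hεη2 hηr' hBig hJ hJ1 hJ3
        (isPreconnected_comp 𝓔 S u) (comp_subset_Y 𝓔 S u) hCs hu
        (mem_comp_self 𝓔 (G_subset_Y 𝓔 S huG)) (hPs hpP) hp.1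
      exact ⟨a, hVsc a ha, l, h1, h2⟩
  have hJ' : ∀ i ∈ J, i ∉ S ∧ 𝓔.φ i 0 ∈ K.D ∧ 𝓔.φ i 1 ∈ K.D := fun i hi =>
    ⟨(hJ i hi).1, (hJ i hi).2, (K.edge_D (hJ i hi).1 (hJ i hi).2).1⟩
  have hWN : ∀ w ∈ K.W, w ∈ V ∨ w ∈ K.W.filter (fun x => x ∉ V) := by
    intro w hw
    by_cases h : w ∈ V
    · exact Or.inl h
    · exact Or.inr (Finset.mem_filter.2 ⟨hw, h⟩)
  refine ⟨K.W.filter (fun x => x ∉ V), P, K.C0 V J M, ?_, ?_, ?_, ?_, ?_, ?_, ?_, ?_, ?_, ?_, ?_,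
    ?_, ?_⟩
  · intro x hx
    rw [Finset.mem_filter] at hx
    exact ⟨K.DG (K.WD x hx.1), hx.2⟩
  · intro p hp
    rw [Finset.mem_filter]
    exact ⟨K.VsW p (hPs hp), hPV p hp⟩
  · intro p hp
    obtain ⟨Z, hZ, hZV, hpZ, hpR, hpG, hcomp, hpe⟩ := hPmem p hp
    refine ⟨hpR, ?_⟩
    rintro v (hv | hv) hvc
    · exact absurd (hcomp ▸ hvc) (hZV v hv)
    · obtain ⟨Z', hZ', hZV', hpZ', hpR', hpG', hcomp', hpe'⟩ := hPmem v hv
      have : Z' = Z := by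
        rw [← hcomp', ← hcomp]
        exact (comp_eq 𝓔 hvc).symm
      rw [hpe', hpe, this]
  · intro w hw
    rcases K.mem_C0 V J M hM1 w hw with ⟨i, hi, rfl⟩ | ⟨p, hp, rfl⟩
    · obtain ⟨hiS, h0, h1⟩ := hJ' i hi
      refine ⟨K.TWok_ew V i, ?_, ?_, ?_⟩
      · rw [K.ew_fst V hVs]
        exact hWN _ (K.qW _ h0)
      · rw [K.ew_snd V hVs]
        exact hWN _ (K.qW _ h1)
      · rw [K.ew_fst V hVs, K.ew_snd V hVs]
        have hc := (K.edge_D hiS h0).2 (φ1_mem_c 𝓔 i)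
        rw [← comp_eq 𝓔 (K.qcomp _ h0), comp_eq 𝓔 hc]
        exact K.qcomp _ h1
    · have hW := K.adj_W hp
      exact ⟨CellSys.TWok_jw p, hWN _ hW.1, hWN _ hW.2, K.adj_comp hp⟩
  · intro w hw
    rcases K.mem_C0 V J M hM1 w hw with ⟨i, hi, rfl⟩ | ⟨p, hp, rfl⟩
    · obtain ⟨hiS, h0, h1⟩ := hJ' i hi
      unfold CellSys.ew
      split_ifs with h
      · refine ⟨by simp, ?_⟩
        intro s hs
        rw [List.mem_singleton] at hs
        subst hs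
        trivial
      · refine ⟨by simp, ?_⟩
        intro s hs
        simp only [List.mem_cons, List.not_mem_nil, or_false] at hs
        rcases hs with rfl | rfl | rfl
        · exact ⟨K.DG (K.q_mem_D h0), φ0_mem_G 𝓔 i, (K.dist_q h0).trans hεη⟩
        · trivial
        · exact ⟨φ1_mem_G 𝓔 i, K.DG (K.q_mem_D h1), by
            rw [dist_comm]; exact (K.dist_q h1).trans hεη⟩
    · refine ⟨by simp [CellSys.jw], ?_⟩
      intro s hs
      have hs' : s = Step.jump p.1 p.2 := by simpa [CellSys.jw] using hs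
      subst hs'
      have hW := K.adj_W hp
      exact ⟨K.DG (K.WD _ hW.1), K.DG (K.WD _ hW.2), (K.adj_dist hp).trans hεη2⟩
  · intro w hw hw1 hw2
    rcases K.mem_C0 V J M hM1 w hw with ⟨i, hi, rfl⟩ | ⟨p, hp, rfl⟩
    · obtain ⟨hiS, h0, h1⟩ := hJ' i hi
      rw [K.ew_fst V hVs] at hw1
      rw [K.ew_snd V hVs] at hw2
      have e0 := K.qVs _ h0 (hVs hw1)
      have e1 := K.qVs _ h1 (hVs hw2)
      refine ⟨i, true, ?_⟩
      unfold CellSys.ew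
      rw [if_pos ⟨e0 ▸ hw1, e1 ▸ hw2⟩]
    · exact absurd hp (K.not_adj_Vs (hVs hw1) (hVs hw2))
  · intro w hw
    rcases K.mem_C0 V J M hM1 w hw with ⟨i, hi, rfl⟩ | ⟨p, hp, rfl⟩
    · obtain ⟨hiS, h0, h1⟩ := hJ' i hi
      by_cases h : 𝓔.φ i 0 ∈ V ∧ 𝓔.φ i 1 ∈ V
      · left
        refine ⟨i, true, ?_⟩
        unfold CellSys.ew
        rw [if_pos h]
      · right
        have hsm : Small r (𝓔.c i) := by
          by_contra hn
          exact h (hBig i hiS hn)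
        intro y hy z hz
        obtain ⟨c, hc, e1⟩ := K.tsup_ew V i h0 h1 hε y hy
        obtain ⟨c', hc', e2⟩ := K.tsup_ew V i h0 h1 hε z hz
        have e3 := hsm c hc c' hc'
        calc dist y z ≤ dist y c + dist c c' + dist c' z := dist_triangle4 _ _ _ _
          _ ≤ 2 * r := by
              rw [dist_comm c' z]
              linarith
    · right
      intro y hy z hz
      rw [CellSys.tsup_jw] at hy hz
      have e := K.adj_dist hp
      rcases hy with hy | hy <;> rcases hz with hz | hz <;> rw [hy, hz]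
      · rw [dist_self]; linarith
      · linarith
      · rw [dist_comm]; linarith
      · rw [dist_self]; linarith
  · intro x hx
    rw [K.items_C0] at hx
    obtain ⟨i, hi, rfl⟩ := Multiset.mem_map.1 hx
    exact ⟨i, rfl, (hJ i hi).1⟩
  · rw [K.items_C0]
    exact J.nodup.map Sum.inl_injective
  · intro i _ hiS hn
    rw [K.items_C0]
    exact Multiset.mem_map.2 ⟨i, hJ1 i hiS hn, rfl⟩
  · intro v hv
    have hvW : v ∈ K.W := by
      rcases hv with h | h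
      · exact K.VsW v (hVs h)
      · exact (Finset.mem_filter.1 h).1
    have h1 := hM2 v hvW
    have h2 : Even (cnt v ((K.W ×ˢ K.W).filter (fun p => K.Adj p.1 p.2)).val) := by
      apply CellSys.cnt_swap
      intro p hp
      rw [Finset.mem_filter, Finset.mem_product] at hp ⊢
      exact ⟨⟨hp.1.2, hp.1.1⟩, K.adj_symm hp.2⟩
    unfold CellSys.C0
    rw [CellSys.degW_add, CellSys.degW_jw, cnt_add]
    obtain ⟨a, ha⟩ := h1
    obtain ⟨b, hb⟩ := h2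
    refine ⟨a + b, ?_⟩
    omega
  · intro u hu huP
    rw [Finset.mem_filter] at hu
    apply hchain u hu.1
    intro h
    rcases hVsc u h with h | h
    · exact hu.2 h
    · exact huP h
  · intro x hxG
    by_cases hxD : x ∈ K.D
    · have hd1 : dist x (K.q x) ≤ η := by
        rw [dist_comm]
        exact (K.dist_q hxD).trans hεη
      by_cases hV1 : K.q x ∈ V
      · exact Or.inr (Or.inr ⟨_, hV1, hd1⟩)
      by_cases hP1 : K.q x ∈ P
      · obtain ⟨Z, _, _, _, hR, _⟩ := hPmem _ hP1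
        exact Or.inr (Or.inl ⟨_, hR, hd1⟩)
      · left
        have hnVs : K.q x ∉ K.Vs := by
          intro h
          rcases hVsc _ h with h | h
          · exact hV1 h
          · exact hP1 h
        obtain ⟨a, ha, l, hl, _⟩ := hchain (K.q x) (K.qW x hxD) hnVs
        have haq : K.q x ≠ a := by
          intro h
          rcases ha with h' | h'
          · exact hV1 (h ▸ h')
          · exact hP1 (h ▸ h')
        have hfirst : ∀ (y : X) (l : List (TW X ι)) (z : X), EdgeSys.WChain (K.C0 V J M) y l z →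
            y ≠ z → ∃ w ∈ K.C0 V J M, y ∈ 𝓔.tsup w := by
          intro y l z hw hne
          cases hw with
          | nil => exact absurd rfl hne
          | fwd w l y hw _ => exact ⟨w, hw, Or.inr (Or.inl rfl)⟩
          | bwd w l y hw _ => exact ⟨w, hw, Or.inr (Or.inr rfl)⟩
        obtain ⟨w, hw, hqw⟩ := hfirst _ _ _ hl haq
        exact ⟨w, hw, _, hqw, hd1⟩
    · have hxY := G_subset_Y 𝓔 S hxG
      have hZn : 𝓔.comp S x ∉ ZZ := by
        intro h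
        apply hxD
        rw [hKD]
        exact ⟨hxG, h⟩
      have hsm : Small η (𝓔.comp S x) := by
        by_contra hn
        exact hZn (Or.inl ⟨x, hxY, rfl, hn⟩)
      have hnV : ∀ v ∈ V, v ∉ 𝓔.comp S x := by
        intro v hv h
        exact hZn (Or.inr ⟨v, hv, (comp_eq 𝓔 h).symm⟩)
      have hSne : S.Nonempty := by
        by_contra hn
        rw [Set.not_nonempty_iff_eq_empty] at hn
        obtain ⟨v, hv⟩ := hVne
        apply hnV v hv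
        have hYu : 𝓔.Y S = univ := by
          rw [hn]
          unfold EdgeSys.Y
          simp
        change v ∈ connectedComponentIn (𝓔.Y S) x
        rw [hYu]
        exact isPreconnected_univ.subset_connectedComponentIn (mem_univ x) (subset_univ _) (mem_univ v)
      obtain ⟨p, hp1, hp2⟩ := hY3 S hSne x hxY
      exact Or.inr (Or.inl ⟨p, hp2, hsm x (mem_comp_self 𝓔 hxY) p hp1⟩)

end Pool.Agent.EU.H91
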