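import Pool.Agent.Helper91_EU.Basic

/-! # PARCOMP -/

open Set Metric Topology unitInterval

noncomputable section

namespace Pool.Agent.EU.H91

universe u v

variable {X : Type u} [MetricSpace X] {ι : Type v} (𝓔 : EdgeSys X ι)

/-- two disjoint closed subsets of a compact space: only finitely many edges join them -/
theorem finite_join [CompactSpace X] (hN : 𝓔.NullStmt) {A B : Set X} (hA : IsClosed A)
    (hB : IsClosed B) (hAB : Disjoint A B) :
    {i | (𝓔.c i ∩ A).Nonempty ∧ (𝓔.c i ∩ B).Nonempty}.Finite := by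
  obtain ⟨ε, hε, h⟩ := hA.isCompact.exists_thickening_subset_open hB.isOpen_compl
    (fun a ha hb => disjoint_left.1 hAB ha hb)
  apply (hN (ε / 2) (by positivity)).subset
  rintro i ⟨⟨a, hac, haA⟩, ⟨b, hbc, hbB⟩⟩ hsm
  have h1 : dist b a ≤ ε / 2 := hsm b hbc a hac
  have h2 : b ∈ thickening ε A := mem_thickening_iff.2 ⟨a, haA, by linarith⟩
  exact h h2 hbB

theorem parComp [CompactSpace X] (hN : 𝓔.NullStmt) (hSep : SepStmt X) : 𝓔.ParCompStmt := by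
  classical
  intro S V d hVG hPar x hxG A hAZ hA hB
  set Z := 𝓔.comp S x with hZ
  set B := (Z ∩ 𝓔.G) \ A with hBdef
  set E : Set ι := {i | i ∉ S ∧ 𝓔.c i ⊆ Z ∧ i ∈ 𝓔.cross A} with hE
  have hxY : x ∈ 𝓔.Y S := G_subset_Y 𝓔 S hxG
  have hAB : Disjoint A B := disjoint_sdiff_right
  have hABu : A ∪ B = Z ∩ 𝓔.G := union_sdiff_cancel hAZ
  have hZc : IsClosed Z := isClosed_comp 𝓔 S x
  -- ends of edges inside Z
  have hends : ∀ i, 𝓔.c i ⊆ Z → ∀ t : I, (t = 0 ∨ t = 1) → 𝓔.φ i t ∈ A ∨ 𝓔.φ i t ∈ B := by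
    intro i hi t ht
    have : 𝓔.φ i t ∈ A ∪ B := by
      rw [hABu]
      exact ⟨hi ⟨t, rfl⟩, end_mem_G 𝓔 i t ht⟩
    exact this
  have hEfin : E.Finite := by
    apply (finite_join 𝓔 hN hA hB hAB).subset
    rintro i ⟨hiS, hiZ, hic⟩
    have h0 := hends i hiZ 0 (Or.inl rfl)
    have h1 := hends i hiZ 1 (Or.inr rfl)
    have hic' : ¬ (𝓔.φ i 0 ∈ A ↔ 𝓔.φ i 1 ∈ A) := hic
    rcases h0 with h0 | h0 <;> rcases h1 with h1 | h1
    · exact absurd (by simp [h0, h1]) hic'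
    · exact ⟨⟨_, φ0_mem_c 𝓔 i, h0⟩, ⟨_, φ1_mem_c 𝓔 i, h1⟩⟩
    · exact ⟨⟨_, φ1_mem_c 𝓔 i, h1⟩, ⟨_, φ0_mem_c 𝓔 i, h0⟩⟩
    · exact absurd (by simp [h0.2, h1.2]) hic'
  refine ⟨hEfin, ?_⟩
  -- the space H
  set H : Set X := 𝓔.Y S \ ⋃ i ∈ E, 𝓔.o i with hH
  have hHc : IsClosed H := (isClosed_Y 𝓔 S).sdiff (isOpen_biUnion fun i _ => isOpen_o 𝓔 i)
  have hGH : 𝓔.G ⊆ H := by
    intro y hy
    refine ⟨G_subset_Y 𝓔 S hy, ?_⟩
    intro h
    simp only [mem_iUnion] at h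
    obtain ⟨i, _, hi⟩ := h
    exact (mem_G_iff 𝓔 y).1 hy i hi
  have hcH : ∀ i, i ∉ S → i ∉ E → 𝓔.c i ⊆ H := by
    intro i hiS hiE y hy
    refine ⟨c_subset_Y 𝓔 hiS hy, ?_⟩
    intro h
    simp only [mem_iUnion] at h
    obtain ⟨j, hj, hyj⟩ := h
    exact Set.disjoint_left.1 (c_disj_o 𝓔 (fun hh => hiE (hh ▸ hj) : i ≠ j)) hy hyj
  set PA : Set X := A ∪ ⋃ i ∈ {i | i ∉ S ∧ 𝓔.φ i 0 ∈ A ∧ 𝓔.φ i 1 ∈ A}, 𝓔.c i with hPA
  set PB : Set X := B ∪ ⋃ i ∈ {i | i ∉ S ∧ 𝓔.φ i 0 ∈ B ∧ 𝓔.φ i 1 ∈ B}, 𝓔.c i with hPB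
  have hPAc : IsClosed PA := isClosed_union_edges 𝓔 hN A hA _
    (fun i hi => ⟨_, φ0_mem_c 𝓔 i, hi.2.1⟩)
  have hPBc : IsClosed PB := isClosed_union_edges 𝓔 hN B hB _
    (fun i hi => ⟨_, φ0_mem_c 𝓔 i, hi.2.1⟩)
  have hAG : A ⊆ 𝓔.G := fun y hy => (hAZ hy).2
  have hBG : B ⊆ 𝓔.G := fun y hy => hy.1.2
  have hPAB : Disjoint PA PB := by
    rw [Set.disjoint_left]
    intro y hy hy'
    rcases hy with hy | hy <;> rcases hy' with hy' | hy'
    · exact Set.disjoint_left.1 hAB hy hy'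
    · simp only [mem_iUnion] at hy'
      obtain ⟨i, ⟨_, h0, h1⟩, hyi⟩ := hy'
      rcases c_inter_G 𝓔 i y hyi (hAG hy) with h | h
      · exact Set.disjoint_left.1 hAB hy (h ▸ h0)
      · exact Set.disjoint_left.1 hAB hy (h ▸ h1)
    · simp only [mem_iUnion] at hy
      obtain ⟨i, ⟨_, h0, h1⟩, hyi⟩ := hy
      rcases c_inter_G 𝓔 i y hyi (hBG hy') with h | h
      · exact Set.disjoint_left.1 hAB (h ▸ h0) hy'
      · exact Set.disjoint_left.1 hAB (h ▸ h1) hy'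
    · simp only [mem_iUnion] at hy hy'
      obtain ⟨i, ⟨_, h0, h1⟩, hyi⟩ := hy
      obtain ⟨j, ⟨_, h0', h1'⟩, hyj⟩ := hy'
      by_cases hij : i = j
      · subst hij
        exact Set.disjoint_left.1 hAB h0 h0'
      · rw [c_eq 𝓔 i] at hyi
        rcases hyi with hyi | hyi
        · exact Set.disjoint_left.1 (c_disj_o 𝓔 (Ne.symm hij)) hyj hyi
        · have hyA : y ∈ A := by
            rcases hyi with h | h
            · rw [h]; exact h0
            · rw [h]; exact h1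
          rcases c_inter_G 𝓔 j y hyj (hAG hyA) with h | h
          · exact Set.disjoint_left.1 hAB hyA (h ▸ h0')
          · exact Set.disjoint_left.1 hAB hyA (h ▸ h1')
  have hcover : Z ∩ H ⊆ PA ∪ PB := by
    rintro y ⟨hyZ, hyH⟩
    by_cases hyG : y ∈ 𝓔.G
    · have : y ∈ A ∪ B := by rw [hABu]; exact ⟨hyZ, hyG⟩
      rcases this with h | h
      · exact Or.inl (Or.inl h)
      · exact Or.inr (Or.inl h)
    · obtain ⟨i, hi⟩ := not_mem_G 𝓔 y hyG
      have hiS : i ∉ S := fun h => (mem_Y_iff 𝓔 S y).1 hyH.1 i h hi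
      have hciZ : 𝓔.c i ⊆ Z :=
        subset_comp 𝓔 (isPreconnected_c 𝓔 i) (c_subset_Y 𝓔 hiS) (o_subset_c 𝓔 i hi) hyZ
      have hiE : i ∉ E := by
        intro h
        apply hyH.2
        simp only [mem_iUnion]
        exact ⟨i, h, hi⟩
      have hnc : (𝓔.φ i 0 ∈ A ↔ 𝓔.φ i 1 ∈ A) := by
        by_contra h
        exact hiE ⟨hiS, hciZ, h⟩
      rcases hends i hciZ 0 (Or.inl rfl) with h0 | h0
      · left; right
        simp only [mem_iUnion]
        exact ⟨i, ⟨hiS, h0, hnc.1 h0⟩, o_subset_c 𝓔 i hi⟩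
      · rcases hends i hciZ 1 (Or.inr rfl) with h1 | h1
        · exact absurd (hnc.2 h1) h0.2
        · right; right
          simp only [mem_iUnion]
          exact ⟨i, ⟨hiS, h0, h1⟩, o_subset_c 𝓔 i hi⟩
  -- components of points of A
  have hcompA : ∀ a ∈ A, connectedComponentIn H a ⊆ PA ∩ Z := by
    intro a ha
    have haZ : a ∈ Z := (hAZ ha).1
    have haH : a ∈ H := hGH (hAG ha)
    have hC1 : connectedComponentIn H a ⊆ Z := by
      refine subset_comp 𝓔 isPreconnected_connectedComponentIn ?_ (mem_connectedComponentIn haH) haZ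
      exact (connectedComponentIn_subset _ _).trans sdiff_subset
    have hC2 : connectedComponentIn H a ⊆ PA ∪ PB := fun y hy =>
      hcover ⟨hC1 hy, connectedComponentIn_subset _ _ hy⟩
    have hpre : IsPreconnected (connectedComponentIn H a) := isPreconnected_connectedComponentIn
    rw [isPreconnected_closed_iff] at hpre
    intro y hy
    refine ⟨?_, hC1 hy⟩
    rcases hC2 hy with h | h
    · exact h
    · exfalso
      obtain ⟨z, _, hz1, hz2⟩ := hpre PA PB hPAc hPBc hC2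
        ⟨a, mem_connectedComponentIn haH, Or.inl ha⟩ ⟨y, hy, h⟩
      exact Set.disjoint_left.1 hPAB hz1 hz2
  obtain ⟨K, hKH, hKc, hHKc, hAK, hKQ⟩ := hSep H A (B ∪ (↑V \ A)) hHc.isCompact
    (fun y hy => hGH (hAG hy))
    (union_subset (fun y hy => hGH (hBG hy)) (fun y hy => hGH (hVG hy.1)))
    hA (hB.union ((V.finite_toSet.subset sdiff_subset).isClosed))
    (by
      intro a ha
      rw [Set.disjoint_left]
      intro y hy hyQ
      have h1 := hcompA a ha hy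
      have hyG : y ∈ 𝓔.G := by
        rcases hyQ with h | h
        · exact hBG h
        · exact hVG h.1
      have hyAB : y ∈ A ∪ B := by rw [hABu]; exact ⟨h1.2, hyG⟩
      have hyB : y ∈ B := by
        rcases hyQ with h | h
        · exact h
        · rcases hyAB with h' | h'
          · exact absurd h' h.2
          · exact h'
      exact Set.disjoint_left.1 hPAB h1.1 (Or.inl hyB))
  -- the clopen set
  have hKG : 𝓔.ClopenG (K ∩ 𝓔.G) := by
    refine ⟨inter_subset_right, hKc.inter (isClosed_G 𝓔), ?_⟩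
    have : 𝓔.G \ (K ∩ 𝓔.G) = (H \ K) ∩ 𝓔.G := by
      ext y
      constructor
      · rintro ⟨h1, h2⟩
        exact ⟨⟨hGH h1, fun h => h2 ⟨h, h1⟩⟩, h1⟩
      · rintro ⟨⟨_, h2⟩, h3⟩
        exact ⟨h3, fun h => h2 h.1⟩
    rw [this]
    exact hHKc.inter (isClosed_G 𝓔)
  have hcr : 𝓔.cross (K ∩ 𝓔.G) \ S = E := by
    ext i
    have h0G := φ0_mem_G 𝓔 i
    have h1G := φ1_mem_G 𝓔 i
    constructor
    · rintro ⟨hi, hiS⟩
      by_contra hiE
      have hi' : ¬ (𝓔.φ i 0 ∈ K ∩ 𝓔.G ↔ 𝓔.φ i 1 ∈ K ∩ 𝓔.G) := hi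
      apply hi'
      have hcK : 𝓔.c i ⊆ K ∪ (H \ K) := by
        intro y hy
        by_cases hyK : y ∈ K
        · exact Or.inl hyK
        · exact Or.inr ⟨hcH i hiS hiE hy, hyK⟩
      have hpre := isPreconnected_c 𝓔 i
      rw [isPreconnected_closed_iff] at hpre
      have hno : ¬ ((𝓔.c i ∩ K).Nonempty ∧ (𝓔.c i ∩ (H \ K)).Nonempty) := by
        rintro ⟨h1, h2⟩
        obtain ⟨z, _, hz1, hz2⟩ := hpre K (H \ K) hKc hHKc hcK h1 h2
        exact hz2.2 hz1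
      constructor
      · rintro ⟨h, _⟩
        refine ⟨?_, h1G⟩
        by_contra hn
        exact hno ⟨⟨_, φ0_mem_c 𝓔 i, h⟩, ⟨_, φ1_mem_c 𝓔 i, hcH i hiS hiE (φ1_mem_c 𝓔 i), hn⟩⟩
      · rintro ⟨h, _⟩
        refine ⟨?_, h0G⟩
        by_contra hn
        exact hno ⟨⟨_, φ1_mem_c 𝓔 i, h⟩, ⟨_, φ0_mem_c 𝓔 i, hcH i hiS hiE (φ0_mem_c 𝓔 i), hn⟩⟩
    · rintro ⟨hiS, hiZ, hic⟩
      refine ⟨?_, hiS⟩
      have hic' : ¬ (𝓔.φ i 0 ∈ A ↔ 𝓔.φ i 1 ∈ A) := hic
      change ¬ (𝓔.φ i 0 ∈ K ∩ 𝓔.G ↔ 𝓔.φ i 1 ∈ K ∩ 𝓔.G)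
      intro hiff
      apply hic'
      have hBK : ∀ y ∈ B, y ∉ K := fun y hy hyK => Set.disjoint_left.1 hKQ hyK (Or.inl hy)
      constructor
      · intro h
        rcases hends i hiZ 1 (Or.inr rfl) with h1 | h1
        · exact h1
        · exact absurd (hiff.1 ⟨hAK h, h0G⟩).1 (hBK _ h1)
      · intro h
        rcases hends i hiZ 0 (Or.inl rfl) with h1 | h1
        · exact h1
        · exact absurd (hiff.2 ⟨hAK h, h1G⟩).1 (hBK _ h1)
  have hP := hPar (K ∩ 𝓔.G) hKG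
  rw [hcr] at hP
  have hsum : ∑ v ∈ V, (K ∩ 𝓔.G).indicator d v = ∑ v ∈ V, A.indicator d v := by
    apply Finset.sum_congr rfl
    intro v hv
    have hiff : v ∈ K ∩ 𝓔.G ↔ v ∈ A := by
      constructor
      · rintro ⟨h, _⟩
        by_contra hn
        exact Set.disjoint_left.1 hKQ h (Or.inr ⟨hv, hn⟩)
      · intro h
        exact ⟨hAK h, hAG h⟩
    by_cases h : v ∈ A
    · rw [Set.indicator_of_mem (hiff.2 h), Set.indicator_of_mem h]
    · rw [Set.indicator_of_notMem (fun hh => h (hiff.1 hh)), Set.indicator_of_notMem h]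
  rw [hsum] at hP
  exact hP

end Pool.Agent.EU.H91
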