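import Pool.Agent.Helper17_EU.StmtsF
import Pool.Agent.Helper17_EU.StmtsT

/-! # Basic facts on edge systems -/

open Set Metric Topology unitInterval

noncomputable section

namespace Pool.Agent.EU.H91

universe u v

variable {X : Type u} [MetricSpace X] {ι : Type v} (𝓔 : EdgeSys X ι)

theorem Ioo_I_nonempty : (Ioo (0 : I) 1).Nonempty :=
  ⟨⟨1 / 2, by norm_num, by norm_num⟩, by
    constructor
    · rw [← Subtype.coe_lt_coe]; norm_num
    · rw [← Subtype.coe_lt_coe]; norm_num⟩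

theorem isOpen_o (i : ι) : IsOpen (𝓔.o i) := 𝓔.opn i

theorem o_subset_c (i : ι) : 𝓔.o i ⊆ 𝓔.c i := by
  rintro x ⟨t, _, rfl⟩
  exact ⟨t, rfl⟩

theorem c_eq (i : ι) : 𝓔.c i = 𝓔.o i ∪ {𝓔.φ i 0, 𝓔.φ i 1} := by
  ext x
  constructor
  · rintro ⟨t, rfl⟩
    by_cases h0 : t = 0
    · subst h0; simp
    by_cases h1 : t = 1
    · subst h1; simp
    left
    exact ⟨t, ⟨unitInterval.pos_iff_ne_zero.2 h0, unitInterval.lt_one_iff_ne_one.2 h1⟩, rfl⟩
  · rintro (h | h)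
    · exact o_subset_c 𝓔 i h
    · rcases h with h | h
      · exact ⟨0, h.symm⟩
      · exact ⟨1, h.symm⟩

theorem o_nonempty (i : ι) : (𝓔.o i).Nonempty := Ioo_I_nonempty.image _

/-- end points of edges are ground points -/
theorem end_mem_G (i : ι) (t : I) (ht : t = 0 ∨ t = 1) : 𝓔.φ i t ∈ 𝓔.G := by
  have key : ∀ j, 𝓔.φ i t ∉ 𝓔.o j := by
    intro j hj
    by_cases hij : i = j
    · subst hij
      obtain ⟨s, hs, hst⟩ := hj
      have := 𝓔.inj i hst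
      subst this
      rcases ht with rfl | rfl
      · exact lt_irrefl _ hs.1
      · exact lt_irrefl _ hs.2
    · have hop : IsOpen (𝓔.φ i ⁻¹' 𝓔.o j) := (isOpen_o 𝓔 j).preimage (𝓔.φ i).continuous
      have hcl : t ∈ closure (Ioo (0 : I) 1) := by
        rw [closure_Ioo (by exact zero_ne_one)]
        exact ⟨unitInterval.nonneg t |> fun h => Subtype.coe_le_coe.1 (by simpa using h), unitInterval.le_one t |> fun h => Subtype.coe_le_coe.1 (by simpa using h)⟩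
      obtain ⟨s, hs1, hs2⟩ := mem_closure_iff.1 hcl _ hop hj
      exact (Set.disjoint_left.1 (𝓔.disj i j hij)) ⟨s, hs2, rfl⟩ hs1
  intro h
  simp only [mem_iUnion] at h
  obtain ⟨j, hj⟩ := h
  exact key j hj

theorem φ0_mem_G (i : ι) : 𝓔.φ i 0 ∈ 𝓔.G := end_mem_G 𝓔 i 0 (Or.inl rfl)

theorem φ1_mem_G (i : ι) : 𝓔.φ i 1 ∈ 𝓔.G := end_mem_G 𝓔 i 1 (Or.inr rfl)

theorem φ0_mem_c (i : ι) : 𝓔.φ i 0 ∈ 𝓔.c i := ⟨0, rfl⟩

theorem φ1_mem_c (i : ι) : 𝓔.φ i 1 ∈ 𝓔.c i := ⟨1, rfl⟩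

theorem isClosed_G : IsClosed 𝓔.G :=
  (isOpen_iUnion fun i => isOpen_o 𝓔 i).isClosed_compl

theorem isClosed_Y (S : Set ι) : IsClosed (𝓔.Y S) :=
  (isOpen_biUnion fun i _ => isOpen_o 𝓔 i).isClosed_compl

theorem G_subset_Y (S : Set ι) : 𝓔.G ⊆ 𝓔.Y S := by
  intro x hx h
  apply hx
  simp only [mem_iUnion] at h ⊢
  obtain ⟨i, _, hi⟩ := h
  exact ⟨i, hi⟩

theorem isCompact_c (i : ι) : IsCompact (𝓔.c i) := isCompact_range (𝓔.φ i).continuous

theorem isClosed_c (i : ι) : IsClosed (𝓔.c i) := (isCompact_c 𝓔 i).isClosed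

theorem isPreconnected_c (i : ι) : IsPreconnected (𝓔.c i) := by
  have := isPreconnected_range (𝓔.φ i).continuous
  exact this

theorem mem_G_iff (x : X) : x ∈ 𝓔.G ↔ ∀ i, x ∉ 𝓔.o i := by
  unfold EdgeSys.G
  simp

theorem mem_Y_iff (S : Set ι) (x : X) : x ∈ 𝓔.Y S ↔ ∀ i ∈ S, x ∉ 𝓔.o i := by
  unfold EdgeSys.Y
  simp

theorem not_mem_G (x : X) (h : x ∉ 𝓔.G) : ∃ i, x ∈ 𝓔.o i := by
  rw [mem_G_iff] at h
  push Not at h
  exact h

theorem o_disj {i j : ι} (h : i ≠ j) : Disjoint (𝓔.o i) (𝓔.o j) := 𝓔.disj i j h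

/-- a closed edge misses all other open edges -/
theorem c_disj_o {i j : ι} (h : i ≠ j) : Disjoint (𝓔.c i) (𝓔.o j) := by
  rw [Set.disjoint_left]
  intro x hx hj
  rw [c_eq] at hx
  rcases hx with hx | hx
  · exact Set.disjoint_left.1 (o_disj 𝓔 h) hx hj
  · rcases hx with hx | hx
    · exact (mem_G_iff 𝓔 x).1 (hx ▸ φ0_mem_G 𝓔 i) j hj
    · exact (mem_G_iff 𝓔 x).1 (by rw [hx]; exact φ1_mem_G 𝓔 i) j hj

theorem c_subset_Y {S : Set ι} {i : ι} (h : i ∉ S) : 𝓔.c i ⊆ 𝓔.Y S := by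
  intro x hx
  rw [mem_Y_iff]
  intro j hj hxj
  exact Set.disjoint_left.1 (c_disj_o 𝓔 (fun hh => h (hh ▸ hj) : i ≠ j)) hx hxj

theorem c_inter_G (i : ι) (x : X) (hx : x ∈ 𝓔.c i) (hG : x ∈ 𝓔.G) : x = 𝓔.φ i 0 ∨ x = 𝓔.φ i 1 := by
  rw [c_eq] at hx
  rcases hx with hx | hx
  · exact absurd hx ((mem_G_iff 𝓔 x).1 hG i)
  · exact hx

theorem comp_subset_Y (S : Set ι) (x : X) : 𝓔.comp S x ⊆ 𝓔.Y S := connectedComponentIn_subset _ _

theorem isPreconnected_comp (S : Set ι) (x : X) : IsPreconnected (𝓔.comp S x) :=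
  isPreconnected_connectedComponentIn

theorem mem_comp_self {S : Set ι} {x : X} (h : x ∈ 𝓔.Y S) : x ∈ 𝓔.comp S x :=
  mem_connectedComponentIn h

/-- connected subsets of `Y S` which meet a component are contained in it -/
theorem subset_comp {S : Set ι} {x y : X} {C : Set X} (hC : IsPreconnected C) (hCY : C ⊆ 𝓔.Y S)
    (hy : y ∈ C) (hyx : y ∈ 𝓔.comp S x) : C ⊆ 𝓔.comp S x := by
  have h1 : 𝓔.comp S x = 𝓔.comp S y := connectedComponentIn_eq hyx
  rw [h1]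
  exact hC.subset_connectedComponentIn hy hCY

theorem comp_eq {S : Set ι} {x y : X} (h : y ∈ 𝓔.comp S x) : 𝓔.comp S x = 𝓔.comp S y :=
  connectedComponentIn_eq h

theorem isClosed_comp (S : Set ι) (x : X) : IsClosed (𝓔.comp S x) := by
  by_cases hx : x ∈ 𝓔.Y S
  · apply isClosed_of_closure_subset
    have h1 : closure (𝓔.comp S x) ⊆ 𝓔.Y S :=
      closure_minimal (comp_subset_Y 𝓔 S x) (isClosed_Y 𝓔 S)
    have h2 : IsPreconnected (closure (𝓔.comp S x)) := (isPreconnected_comp 𝓔 S x).closure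
    exact h2.subset_connectedComponentIn (subset_closure (mem_comp_self 𝓔 hx)) h1
  · have : 𝓔.comp S x = ∅ := connectedComponentIn_eq_empty hx
    rw [this]
    exact isClosed_empty

theorem Small.mono {r s : ℝ} {A B : Set X} (h : Small r A) (hrs : r ≤ s) (hAB : B ⊆ A) : Small s B :=
  fun y hy z hz => (h y (hAB hy) z (hAB hz)).trans hrs

/-- a null family of closed sets meeting a closed set has closed union with it -/
theorem isClosed_union_edges (hN : 𝓔.NullStmt) (A : Set X) (hA : IsClosed A) (J : Set ι)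
    (hJ : ∀ i ∈ J, (𝓔.c i ∩ A).Nonempty) : IsClosed (A ∪ ⋃ i ∈ J, 𝓔.c i) := by
  apply isClosed_of_closure_subset
  intro y hy
  by_cases hyA : y ∈ A
  · exact Or.inl hyA
  right
  obtain ⟨ε, hε, hball⟩ := Metric.isOpen_iff.1 hA.isOpen_compl y hyA
  have hfin : (J ∩ {i | ¬ Small (ε / 2) (𝓔.c i)}).Finite := (hN (ε / 2) (by positivity)).inter_of_right _
  have hcl : IsClosed (⋃ i ∈ J ∩ {i | ¬ Small (ε / 2) (𝓔.c i)}, 𝓔.c i) :=
    hfin.isClosed_biUnion (fun i _ => isClosed_c 𝓔 i)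
  have hsub : (A ∪ ⋃ i ∈ J, 𝓔.c i) ∩ ball y (ε / 2) ⊆
      ⋃ i ∈ J ∩ {i | ¬ Small (ε / 2) (𝓔.c i)}, 𝓔.c i := by
    rintro z ⟨hz, hzb⟩
    rcases hz with hz | hz
    · exfalso
      exact hball (ball_subset_ball (by linarith) hzb) hz
    · simp only [mem_iUnion] at hz
      obtain ⟨i, hiJ, hzi⟩ := hz
      simp only [mem_iUnion]
      refine ⟨i, ⟨hiJ, ?_⟩, hzi⟩
      intro hsm
      obtain ⟨a, hac, haA⟩ := hJ i hiJ
      have h1 : dist z a ≤ ε / 2 := hsm z hzi a hac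
      have h2 : dist a y < ε := by
        calc dist a y ≤ dist a z + dist z y := dist_triangle _ _ _
          _ < ε / 2 + ε / 2 := by
              rw [dist_comm a z]
              exact add_lt_add_of_le_of_lt h1 hzb
          _ = ε := by ring
      exact hball h2 haA
  have hy2 : y ∈ closure ((A ∪ ⋃ i ∈ J, 𝓔.c i) ∩ ball y (ε / 2)) := by
    rw [inter_comm]
    exact isOpen_ball.inter_closure ⟨mem_ball_self (by positivity), hy⟩
  have hy3 := closure_minimal hsub hcl hy2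
  simp only [mem_iUnion] at hy3 ⊢
  obtain ⟨i, hi, hyi⟩ := hy3
  exact ⟨i, hi.1, hyi⟩

end Pool.Agent.EU.H91
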