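import Pool.Agent.Helper91_EU.Cells

/-! # T-joins and existence of cell systems -/

open Set Metric Topology unitInterval

noncomputable section

namespace Pool.Agent.EU.H91

universe u v

section tjoin

variable {X : Type u} (R : X → X → Prop)

open Classical in
/-- number of ends at `x` -/
def cnt (x : X) (M : Multiset (X × X)) : ℕ :=
  M.countP (fun p => p.1 = x) + M.countP (fun p => p.2 = x)

theorem cnt_add (x : X) (M N : Multiset (X × X)) : cnt x (M + N) = cnt x M + cnt x N := by
  unfold cnt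
  rw [Multiset.countP_add, Multiset.countP_add]
  ring

theorem cnt_zero (x : X) : cnt x 0 = 0 := by
  unfold cnt
  simp

theorem cnt_nsmul (x : X) (n : ℕ) (M : Multiset (X × X)) : cnt x (n • M) = n * cnt x M := by
  unfold cnt
  rw [Multiset.countP_nsmul, Multiset.countP_nsmul]
  ring

theorem cnt_sum (x : X) (W : Finset X) (P : X → Multiset (X × X)) :
    cnt x (∑ v ∈ W, P v) = ∑ v ∈ W, cnt x (P v) := by
  classical
  induction W using Finset.induction_on with
  | empty => simp [cnt_zero]
  | insert a s ha ih => rw [Finset.sum_insert ha, Finset.sum_insert ha, cnt_add, ih]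

theorem path_exists {a b : X} (h : Relation.ReflTransGen R a b) :
    ∃ l : Multiset (X × X), (∀ p ∈ l, R p.1 p.2) ∧
      ∀ x, (cnt x l : ZMod 2) = (open Classical in (if a = x then 1 else 0) + (if b = x then 1 else 0)) := by
  classical
  induction h with
  | refl =>
    refine ⟨0, by simp, ?_⟩
    intro x
    rw [cnt_zero]
    by_cases h : a = x
    · simp only [h, if_true]
      decide
    · simp [h]
  | @tail b c _ hbc ih =>
    obtain ⟨l, h1, h2⟩ := ih
    refine ⟨(b, c) ::ₘ l, ?_, ?_⟩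
    · intro p hp
      rcases Multiset.mem_cons.1 hp with rfl | hp
      · exact hbc
      · exact h1 p hp
    · intro x
      have hx := h2 x
      have : cnt x ((b, c) ::ₘ l) = cnt x l + (if b = x then 1 else 0) + (if c = x then 1 else 0) := by
        unfold cnt
        rw [Multiset.countP_cons, Multiset.countP_cons]
        ring
      rw [this]
      push_cast
      rw [hx]
      by_cases h : b = x
      · simp only [h, if_true]
        have h2 : (1 : ZMod 2) + 1 = 0 := by decide
        linear_combination h2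
      · simp [h]

theorem tjoin (hR : ∀ a b, R a b → R b a) (W : Finset X) (f : X → ℕ)
    (hf : ∀ w ∈ W, Even (open Classical in ∑ v ∈ W.filter (fun v => Relation.ReflTransGen R v w), f v)) :
    ∃ M : Multiset (X × X), (∀ p ∈ M, R p.1 p.2) ∧ ∀ x ∈ W, Even (cnt x M + f x) := by
  classical
  have hsymm : ∀ a b, Relation.ReflTransGen R a b → Relation.ReflTransGen R b a := by
    intro a b h
    induction h with
    | refl => exact Relation.ReflTransGen.refl
    | tail _ h2 ih => exact Relation.ReflTransGen.head (hR _ _ h2) ih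
  let s : Setoid X := ⟨Relation.ReflTransGen R, ⟨fun _ => Relation.ReflTransGen.refl,
    fun h => hsymm _ _ h, fun h h' => h.trans h'⟩⟩
  let root : X → X := fun v => Quotient.out (Quotient.mk s v)
  have hroot : ∀ v, Relation.ReflTransGen R v (root v) := fun v =>
    hsymm _ _ (Quotient.exact (Quotient.out_eq (Quotient.mk s v)))
  have hroot2 : ∀ v w, Relation.ReflTransGen R v w → root v = root w := by
    intro v w h
    have : Quotient.mk s v = Quotient.mk s w := Quotient.sound h
    change Quotient.out (Quotient.mk s v) = Quotient.out (Quotient.mk s w)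
    rw [this]
  choose P hP1 hP2 using fun v => path_exists R (hroot v)
  refine ⟨∑ v ∈ W, f v • P v, ?_, ?_⟩
  · intro p hp
    obtain ⟨v, _, hv⟩ := Multiset.mem_sum.1 hp
    exact hP1 v p (Multiset.mem_of_mem_nsmul hv)
  · intro x hx
    rw [← ZMod.natCast_eq_zero_iff_even, cnt_sum]
    have h1 : ∀ v ∈ W, ((cnt x (f v • P v) : ℕ) : ZMod 2) =
        (if v = x then (f v : ZMod 2) else 0) + (if root v = x then (f v : ZMod 2) else 0) := by
      intro v _
      rw [cnt_nsmul]
      push_cast
      rw [hP2 v x]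
      rw [mul_add, mul_ite, mul_ite, mul_one, mul_zero]
    push_cast
    rw [Finset.sum_congr rfl h1, Finset.sum_add_distrib, Finset.sum_ite_eq' W x]
    simp only [hx, if_true]
    have h2 : ∑ v ∈ W, (if root v = x then (f v : ZMod 2) else 0) = 0 := by
      rw [← Finset.sum_filter]
      by_cases hex : ∃ v ∈ W, root v = x
      · obtain ⟨v0, hv0, hr⟩ := hex
        have hE := hf v0 hv0
        rw [← ZMod.natCast_eq_zero_iff_even] at hE
        push_cast at hE
        rw [← hE]
        apply Finset.sum_congr _ (fun _ _ => rfl)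
        ext v
        simp only [Finset.mem_filter]
        constructor
        · rintro ⟨a, b⟩
          refine ⟨a, ?_⟩
          have h3 := hroot v
          rw [b, ← hr] at h3
          exact h3.trans (hsymm _ _ (hroot v0))
        · rintro ⟨a, b⟩
          exact ⟨a, by rw [hroot2 v v0 b, hr]⟩
      · rw [Finset.filter_eq_empty_iff.2 (fun v hv hh => hex ⟨v, hv, hh⟩), Finset.sum_empty]
    rw [h2]
    have h3 : (f x : ZMod 2) + f x = 0 := by
      have : (2 : ZMod 2) = 0 := by decide
      linear_combination (f x : ZMod 2) * this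
    linear_combination h3

end tjoin

variable {X : Type u} [MetricSpace X] {ι : Type v} (𝓔 : EdgeSys X ι)

theorem exists_cells [CompactSpace X] (S : Set ι) (ZZ : Set (Set X)) (hZ : ZZ.Finite)
    (hZc : ∀ Z ∈ ZZ, ∃ x ∈ 𝓔.Y S, Z = 𝓔.comp S x) (Vs : Finset X)
    (hV : ∀ v ∈ Vs, v ∈ 𝓔.G ∧ 𝓔.comp S v ∈ ZZ) (ε : ℝ) (hε : 0 < ε) :
    ∃ K : CellSys 𝓔 S ε, K.Vs = Vs ∧ K.D = {x | x ∈ 𝓔.G ∧ 𝓔.comp S x ∈ ZZ} := by
  classical
  obtain ⟨t, _, htf, htc⟩ := (isCompact_univ : IsCompact (univ : Set X)).finite_cover_balls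
    (half_pos hε)
  have hk : ∀ x : X, ∃ c ∈ t, dist x c < ε / 2 := by
    intro x
    have := htc (mem_univ x)
    simp only [mem_iUnion] at this
    obtain ⟨c, hc, hx⟩ := this
    exact ⟨c, hc, hx⟩
  choose k hkt hkd using hk
  set D : Set X := {x | x ∈ 𝓔.G ∧ 𝓔.comp S x ∈ ZZ} with hD
  let Q : Set X → X → X → Prop := fun Z c y => y ∈ 𝓔.G ∧ y ∉ Vs ∧ 𝓔.comp S y = Z ∧ k y = c
  let rep : Set X → X → X := fun Z c => if h : ∃ y, Q Z c y then h.choose else c
  have hrep : ∀ x ∈ 𝓔.G, x ∉ Vs → Q (𝓔.comp S x) (k x) (rep (𝓔.comp S x) (k x)) := by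
    intro x hx hxV
    have h : ∃ y, Q (𝓔.comp S x) (k x) y := ⟨x, hx, hxV, rfl, rfl⟩
    change Q _ _ (if h : ∃ y, Q _ _ y then h.choose else _)
    rw [dif_pos h]
    exact h.choose_spec
  let q : X → X := fun x => if x ∈ Vs then x else rep (𝓔.comp S x) (k x)
  have hq1 : ∀ x ∈ Vs, q x = x := fun x hx => if_pos hx
  have hq2 : ∀ x, x ∉ Vs → q x = rep (𝓔.comp S x) (k x) := fun x hx => if_neg hx
  have hfin : (q '' (D \ ↑Vs)).Finite := by
    apply (Set.Finite.image2 rep hZ htf).subset
    rintro w ⟨x, ⟨hx, hxV⟩, rfl⟩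
    rw [hq2 x hxV]
    exact ⟨_, hx.2, _, hkt x, rfl⟩
  have hDG : D ⊆ 𝓔.G := fun x hx => hx.1
  have hY : ∀ x ∈ 𝓔.G, x ∈ 𝓔.comp S x := fun x hx => mem_comp_self 𝓔 (G_subset_Y 𝓔 S hx)
  have hqD : ∀ x ∈ D, x ∉ Vs → q x ∈ D ∧ q x ∉ Vs ∧ 𝓔.comp S (q x) = 𝓔.comp S x ∧
      k (q x) = k x := by
    intro x hx hxV
    obtain ⟨a, b, c, d⟩ := hrep x hx.1 hxV
    rw [hq2 x hxV]
    exact ⟨⟨a, by rw [c]; exact hx.2⟩, b, c, d⟩
  refine ⟨{ D := D
            W := Vs ∪ hfin.toFinset
            Vs := Vs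
            q := q
            Dcl := ?_
            DG := hDG
            Dsat := ?_
            qW := ?_
            qcomp := ?_
            WD := ?_
            qq := ?_
            qsmall := ?_
            VsW := ?_
            qVs := ?_ }, rfl, rfl⟩
  · have : D = 𝓔.G ∩ ⋃ Z ∈ ZZ, Z := by
      ext x
      simp only [mem_inter_iff, mem_iUnion]
      constructor
      · rintro ⟨h1, h2⟩
        exact ⟨h1, _, h2, hY x h1⟩
      · rintro ⟨h1, Z, hZ1, hxZ⟩
        refine ⟨h1, ?_⟩
        obtain ⟨y, _, rfl⟩ := hZc Z hZ1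
        rw [← comp_eq 𝓔 hxZ]
        exact hZ1
    rw [this]
    apply (isClosed_G 𝓔).inter
    apply hZ.isClosed_biUnion
    intro Z hZ1
    obtain ⟨y, _, rfl⟩ := hZc Z hZ1
    exact isClosed_comp 𝓔 S y
  · intro x hx y hy hyx
    exact ⟨hy, by rw [← comp_eq 𝓔 hyx]; exact hx.2⟩
  · intro x hx
    by_cases hxV : x ∈ Vs
    · rw [hq1 x hxV]
      exact Finset.mem_union_left _ hxV
    · exact Finset.mem_union_right _ (hfin.mem_toFinset.2 ⟨x, ⟨hx, hxV⟩, rfl⟩)
  · intro x hx
    by_cases hxV : x ∈ Vs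
    · rw [hq1 x hxV]
      exact hY x hx.1
    · obtain ⟨a, b, c, d⟩ := hqD x hx hxV
      rw [← c]
      exact hY _ a.1
  · intro w hw
    rcases Finset.mem_union.1 hw with h | h
    · exact hV w h
    · obtain ⟨x, ⟨hx, hxV⟩, rfl⟩ := hfin.mem_toFinset.1 h
      exact (hqD x hx hxV).1
  · intro w hw
    rcases Finset.mem_union.1 hw with h | h
    · exact hq1 w h
    · obtain ⟨x, ⟨hx, hxV⟩, rfl⟩ := hfin.mem_toFinset.1 h
      obtain ⟨a, b, c, d⟩ := hqD x hx hxV
      rw [hq2 _ b, c, d, ← hq2 x hxV]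
  · intro x hx y hy hxy
    by_cases hxV : x ∈ Vs <;> by_cases hyV : y ∈ Vs
    · rw [hq1 x hxV, hq1 y hyV] at hxy
      rw [hxy, dist_self]
      exact hε.le
    · exfalso
      rw [hq1 x hxV] at hxy
      exact (hqD y hy hyV).2.1 (hxy ▸ hxV)
    · exfalso
      rw [hq1 y hyV] at hxy
      exact (hqD x hx hxV).2.1 (hxy ▸ hyV)
    · have e1 := (hqD x hx hxV).2.2.2
      have e2 := (hqD y hy hyV).2.2.2
      rw [hxy, e2] at e1
      calc dist x y ≤ dist x (k x) + dist (k x) y := dist_triangle _ _ _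
        _ ≤ ε / 2 + ε / 2 := by
            rw [← e1, dist_comm (k y) y]
            have h1 := hkd x
            have h2 := hkd y
            rw [← e1] at h1
            linarith
        _ = ε := by ring
  · intro v hv
    exact Finset.mem_union_left _ hv
  · intro x hx hqx
    by_cases hxV : x ∈ Vs
    · exact hq1 x hxV
    · exact absurd hqx (hqD x hx hxV).2.1

end Pool.Agent.EU.H91
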