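import Pool.Agent.Helper91_EU.ParComp
import Pool.Agent.Helper91_EU.TJoin

/-! # BOT -/

open Set Metric Topology unitInterval

noncomputable section

namespace Pool.Agent.EU.H91

universe u v

variable {X : Type u} [MetricSpace X] {ι : Type v} {𝓔 : EdgeSys X ι}

namespace CellSys

variable {S : Set ι} {ε : ℝ} (K : CellSys 𝓔 S ε)

/-- walk of a jump -/
def jw (p : X × X) : TW X ι := (p.1, [Step.jump p.1 p.2], p.2)

open Classical in
/-- walk of an edge -/
def ew (V : Finset X) (i : ι) : TW X ι :=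
  if 𝓔.φ i 0 ∈ V ∧ 𝓔.φ i 1 ∈ V then (𝓔.φ i 0, [Step.edge i true], 𝓔.φ i 1)
  else (K.q (𝓔.φ i 0), [Step.jump (K.q (𝓔.φ i 0)) (𝓔.φ i 0), Step.edge i true,
    Step.jump (𝓔.φ i 1) (K.q (𝓔.φ i 1))], K.q (𝓔.φ i 1))

theorem q_mem_D {x : X} (hx : x ∈ K.D) : K.q x ∈ K.D := K.WD _ (K.qW x hx)

theorem qq' {x : X} (hx : x ∈ K.D) : K.q (K.q x) = K.q x := K.qq _ (K.qW x hx)

theorem dist_q {x : X} (hx : x ∈ K.D) : dist (K.q x) x ≤ ε :=
  K.qsmall _ (K.q_mem_D hx) _ hx (K.qq' hx)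

theorem q_of_Vs {x : X} (hx : x ∈ K.Vs) : K.q x = x := K.qq x (K.VsW x hx)

theorem ew_fst (V : Finset X) (hV : V ⊆ K.Vs) (i : ι) : (K.ew V i).1 = K.q (𝓔.φ i 0) := by
  unfold ew
  split_ifs with h
  · exact (K.q_of_Vs (hV h.1)).symm
  · rfl

theorem ew_snd (V : Finset X) (hV : V ⊆ K.Vs) (i : ι) : (K.ew V i).2.2 = K.q (𝓔.φ i 1) := by
  unfold ew
  split_ifs with h
  · exact (K.q_of_Vs (hV h.2)).symm
  · rfl

theorem items_ew (V : Finset X) (i : ι) : items (K.ew V i).2.1 = [Sum.inl i] := by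
  unfold ew
  split_ifs with h
  · rfl
  · rfl

theorem items_jw (p : X × X) : items (jw p : TW X ι).2.1 = [] := rfl

theorem tsup_jw (p : X × X) : 𝓔.tsup (jw p : TW X ι) = {p.1, p.2} := by
  unfold EdgeSys.tsup EdgeSys.supW jw
  ext z
  simp [EdgeSys.supp]

theorem tsup_ew (V : Finset X) (i : ι) (h0 : 𝓔.φ i 0 ∈ K.D) (h1 : 𝓔.φ i 1 ∈ K.D) (hε : 0 ≤ ε) :
    ∀ z ∈ 𝓔.tsup (K.ew V i), ∃ c ∈ 𝓔.c i, dist z c ≤ ε := by
  intro z hz
  have hc : ∀ z ∈ 𝓔.c i, ∃ c ∈ 𝓔.c i, dist z c ≤ ε := fun z hz => ⟨z, hz, by rw [dist_self]; exact hε⟩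
  unfold EdgeSys.tsup EdgeSys.supW ew at hz
  split_ifs at hz with h
  · simp only [List.mem_singleton, exists_eq_left, EdgeSys.supp] at hz
    rcases hz with hz | hz
    · exact hc z hz
    · rcases hz with hz | hz
      · exact hc z (hz ▸ φ0_mem_c 𝓔 i)
      · exact hc z (by rw [hz]; exact φ1_mem_c 𝓔 i)
  · have hq0 : ∃ c ∈ 𝓔.c i, dist (K.q (𝓔.φ i 0)) c ≤ ε := ⟨_, φ0_mem_c 𝓔 i, K.dist_q h0⟩
    have hq1 : ∃ c ∈ 𝓔.c i, dist (K.q (𝓔.φ i 1)) c ≤ ε := ⟨_, φ1_mem_c 𝓔 i, K.dist_q h1⟩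
    rcases hz with hz | hz
    · obtain ⟨s, hs, hz⟩ := hz
      simp only [List.mem_cons, List.not_mem_nil, or_false] at hs
      rcases hs with rfl | rfl | rfl
      · rcases hz with hz | hz
        · exact hz ▸ hq0
        · rw [hz]; exact hc _ (φ0_mem_c 𝓔 i)
      · exact hc z hz
      · rcases hz with hz | hz
        · rw [hz]; exact hc _ (φ1_mem_c 𝓔 i)
        · rw [hz]; exact hq1
    · rcases hz with hz | hz
      · exact hz ▸ hq0
      · rw [hz]; exact hq1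

theorem TWok_ew (V : Finset X) (i : ι) : 𝓔.TWok (K.ew V i) := by
  unfold EdgeSys.TWok ew
  split_ifs with h
  · exact EdgeSys.IsW.cons (Step.edge i true) [] _ (EdgeSys.IsW.nil _)
  · exact EdgeSys.IsW.cons (Step.jump (K.q (𝓔.φ i 0)) (𝓔.φ i 0)) _ _
      (EdgeSys.IsW.cons (Step.edge i true) _ _
        (EdgeSys.IsW.cons (Step.jump (𝓔.φ i 1) (K.q (𝓔.φ i 1))) [] _ (EdgeSys.IsW.nil _)))

theorem TWok_jw (p : X × X) : 𝓔.TWok (jw p : TW X ι) :=
  EdgeSys.IsW.cons (Step.jump p.1 p.2) [] _ (EdgeSys.IsW.nil _)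

open Classical in
theorem degW_jw (M : Multiset (X × X)) (x : X) : EdgeSys.degW (M.map (jw (ι := ι))) x = cnt x M := by
  unfold EdgeSys.degW cnt
  rw [Multiset.countP_map, Multiset.countP_map, Multiset.countP_eq_card_filter,
    Multiset.countP_eq_card_filter]
  rfl

theorem degW_add (P Q : Multiset (TW X ι)) (x : X) : EdgeSys.degW (P + Q) x = EdgeSys.degW P x + EdgeSys.degW Q x := by
  classical
  unfold EdgeSys.degW
  rw [Multiset.countP_add, Multiset.countP_add]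
  ring

open Classical in
theorem cnt_swap (F : Finset (X × X)) (hF : ∀ p ∈ F, p.swap ∈ F) (x : X) : Even (cnt x F.val) := by
  have h1 : F.val.countP (fun p => p.1 = x) = (F.filter (fun p => p.1 = x)).card := by
    rw [Multiset.countP_eq_card_filter]
    rfl
  have h2 : F.val.countP (fun p => p.2 = x) = (F.filter (fun p => p.2 = x)).card := by
    rw [Multiset.countP_eq_card_filter]
    rfl
  have h3 : (F.filter (fun p => p.1 = x)).card = (F.filter (fun p => p.2 = x)).card := by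
    apply Finset.card_bij' (fun p _ => p.swap) (fun p _ => p.swap)
    · intro p _
      exact Prod.swap_swap p
    · intro p _
      exact Prod.swap_swap p
    · intro p hp
      rw [Finset.mem_filter] at hp ⊢
      exact ⟨hF p hp.1, hp.2⟩
    · intro p hp
      rw [Finset.mem_filter] at hp ⊢
      exact ⟨hF p hp.1, hp.2⟩
  unfold cnt
  rw [h1, h2, h3]
  exact ⟨_, rfl⟩

end CellSys

end Pool.Agent.EU.H91
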