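import Pool.Agent.Helper91_EU.Bot

/-! # BOT, main part -/

open Set Metric Topology unitInterval

noncomputable section

namespace Pool.Agent.EU.H91

universe u v

variable {X : Type u} [MetricSpace X] {ι : Type v} {𝓔 : EdgeSys X ι}

namespace CellSys

variable {S : Set ι} {ε : ℝ} (K : CellSys 𝓔 S ε)

/-- an edge outside `S` with one end in `D` -/
theorem edge_D {i : ι} (hi : i ∉ S) (h : 𝓔.φ i 0 ∈ K.D) : 𝓔.φ i 1 ∈ K.D ∧
    𝓔.c i ⊆ 𝓔.comp S (𝓔.φ i 0) := by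
  have hc : 𝓔.c i ⊆ 𝓔.comp S (𝓔.φ i 0) :=
    subset_comp 𝓔 (isPreconnected_c 𝓔 i) (c_subset_Y 𝓔 hi) (φ0_mem_c 𝓔 i)
      (mem_comp_self 𝓔 (G_subset_Y 𝓔 S (φ0_mem_G 𝓔 i)))
  exact ⟨K.Dsat _ h _ (φ1_mem_G 𝓔 i) (hc (φ1_mem_c 𝓔 i)), hc⟩

/-- the finite set of edges used: all which are not small, all between different adjacency
classes, and one small edge for every joined pair of cells -/
theorem exists_J [CompactSpace X] (hN : 𝓔.NullStmt) {η : ℝ} (hη : 0 < η)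
    (hbig : ∀ i, i ∉ S → ¬ Small η (𝓔.c i) → 𝓔.φ i 0 ∈ K.D) :
    ∃ J : Finset ι, (∀ i ∈ J, i ∉ S ∧ 𝓔.φ i 0 ∈ K.D) ∧ (∀ i, i ∉ S → ¬ Small η (𝓔.c i) → i ∈ J) ∧
      (∀ i, i ∉ S → 𝓔.φ i 0 ∈ K.D →
        ¬ Relation.ReflTransGen K.Adj (K.q (𝓔.φ i 0)) (K.q (𝓔.φ i 1)) → i ∈ J) ∧
      (∀ i, i ∉ S → 𝓔.φ i 0 ∈ K.D → Small η (𝓔.c i) → ∃ j ∈ J, Small η (𝓔.c j) ∧
        K.q (𝓔.φ j 0) = K.q (𝓔.φ i 0) ∧ K.q (𝓔.φ j 1) = K.q (𝓔.φ i 1)) := by
  classical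
  set J1 : Set ι := {i | i ∉ S ∧ ¬ Small η (𝓔.c i)} with hJ1
  set J2 : Set ι := {i | i ∉ S ∧ 𝓔.φ i 0 ∈ K.D ∧
    ¬ Relation.ReflTransGen K.Adj (K.q (𝓔.φ i 0)) (K.q (𝓔.φ i 1))} with hJ2
  let Q : X → X → ι → Prop := fun a b j => j ∉ S ∧ 𝓔.φ j 0 ∈ K.D ∧ Small η (𝓔.c j) ∧
    K.q (𝓔.φ j 0) = a ∧ K.q (𝓔.φ j 1) = b
  let ch : X → X → Set ι := fun a b => if h : ∃ j, Q a b j then {h.choose} else ∅
  have hch : ∀ a b j, j ∈ ch a b → Q a b j := by
    intro a b j hj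
    by_cases h : ∃ j, Q a b j
    · have : ch a b = {h.choose} := dif_pos h
      rw [this] at hj
      rw [mem_singleton_iff.1 hj]
      exact h.choose_spec
    · have : ch a b = ∅ := dif_neg h
      rw [this] at hj
      exact absurd hj (by simp)
  have hchf : ∀ a b, (ch a b).Finite := by
    intro a b
    by_cases h : ∃ j, Q a b j
    · have : ch a b = {h.choose} := dif_pos h
      rw [this]
      exact finite_singleton _
    · have : ch a b = ∅ := dif_neg h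
      rw [this]
      exact finite_empty
  set J3 : Set ι := ⋃ a ∈ (↑K.W : Set X), ⋃ b ∈ (↑K.W : Set X), ch a b with hJ3
  have f1 : J1.Finite := (hN η hη).subset (fun i hi => hi.2)
  have f2 : J2.Finite := by
    have : J2 ⊆ ⋃ w ∈ (↑K.W : Set X), {i | (𝓔.c i ∩ K.cls w).Nonempty ∧
        (𝓔.c i ∩ {x | x ∈ K.D ∧ ¬ Relation.ReflTransGen K.Adj (K.q x) w}).Nonempty} := by
      rintro i ⟨h1, h2, h3⟩
      simp only [mem_iUnion]
      refine ⟨K.q (𝓔.φ i 0), K.qW _ h2, ⟨_, φ0_mem_c 𝓔 i, h2, Relation.ReflTransGen.refl⟩,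
        ⟨_, φ1_mem_c 𝓔 i, (K.edge_D h1 h2).1, fun h => h3 (K.rtg_symm h)⟩⟩
    apply Set.Finite.subset _ this
    apply K.W.finite_toSet.biUnion
    intro w _
    apply finite_join 𝓔 hN (K.isClosed_cls w) (K.isClosed_cls_compl w)
    rw [Set.disjoint_left]
    rintro x ⟨_, hx⟩ ⟨_, hx'⟩
    exact hx' hx
  have f3 : J3.Finite := by
    apply K.W.finite_toSet.biUnion
    intro a _
    apply K.W.finite_toSet.biUnion
    intro b _
    exact hchf a b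
  refine ⟨((f1.union f2).union f3).toFinset, ?_, ?_, ?_, ?_⟩
  · intro i hi
    rw [Set.Finite.mem_toFinset] at hi
    rcases hi with (hi | hi) | hi
    · exact ⟨hi.1, hbig i hi.1 hi.2⟩
    · exact ⟨hi.1, hi.2.1⟩
    · simp only [hJ3, mem_iUnion] at hi
      obtain ⟨a, _, b, _, hab⟩ := hi
      have := hch a b i hab
      exact ⟨this.1, this.2.1⟩
  · intro i h1 h2
    rw [Set.Finite.mem_toFinset]
    exact Or.inl (Or.inl ⟨h1, h2⟩)
  · intro i h1 h2 h3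
    rw [Set.Finite.mem_toFinset]
    exact Or.inl (Or.inr ⟨h1, h2, h3⟩)
  · intro i h1 h2 h3
    have hex : ∃ j, Q (K.q (𝓔.φ i 0)) (K.q (𝓔.φ i 1)) j := ⟨i, h1, h2, h3, rfl, rfl⟩
    have hc : ch (K.q (𝓔.φ i 0)) (K.q (𝓔.φ i 1)) = {hex.choose} := dif_pos hex
    refine ⟨hex.choose, ?_, hex.choose_spec.2.2.1, hex.choose_spec.2.2.2.1,
      hex.choose_spec.2.2.2.2⟩
    rw [Set.Finite.mem_toFinset]
    right
    simp only [hJ3, mem_iUnion]
    refine ⟨K.q (𝓔.φ i 0), K.qW _ h2, K.q (𝓔.φ i 1), K.qW _ (K.edge_D h1 h2).1, ?_⟩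
    rw [hc]
    rfl

/-- parity of the class sums -/
theorem class_even (hPC : 𝓔.ParCompStmt) (V : Finset X) (d : X → ℕ) (hVG : ∀ v ∈ V, v ∈ 𝓔.G)
    (hPar : 𝓔.Par S V d) (hd : ∀ v ∉ V, d v = 0) (hVs : V ⊆ K.Vs) (J : Finset ι)
    (hJ : ∀ i ∈ J, i ∉ S ∧ 𝓔.φ i 0 ∈ K.D)
    (hJ2 : ∀ i, i ∉ S → 𝓔.φ i 0 ∈ K.D →
        ¬ Relation.ReflTransGen K.Adj (K.q (𝓔.φ i 0)) (K.q (𝓔.φ i 1)) → i ∈ J) (w : X)
    (hw : w ∈ K.W) :
    Even (open Classical in ∑ v ∈ K.W.filter (fun v => Relation.ReflTransGen K.Adj v w),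
      (EdgeSys.degW (J.val.map (K.ew V)) v + d v)) := by
  classical
  have hwD := K.WD w hw
  have hwG := K.DG hwD
  have hclsG : K.cls w ⊆ 𝓔.comp S w ∩ 𝓔.G := by
    rintro x ⟨h1, h2⟩
    refine ⟨?_, K.DG h1⟩
    have h3 := K.rtg_comp hw (K.rtg_symm h2)
    rw [comp_eq 𝓔 h3, ← comp_eq 𝓔 (K.qcomp x h1)]
    exact mem_comp_self 𝓔 (G_subset_Y 𝓔 S (K.DG h1))
  have hcl2 : IsClosed ((𝓔.comp S w ∩ 𝓔.G) \ K.cls w) := by
    have : (𝓔.comp S w ∩ 𝓔.G) \ K.cls w =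
        𝓔.comp S w ∩ {x | x ∈ K.D ∧ ¬ Relation.ReflTransGen K.Adj (K.q x) w} := by
      ext x
      constructor
      · rintro ⟨⟨h1, h2⟩, h3⟩
        have hxD := K.Dsat w hwD x h2 h1
        exact ⟨h1, hxD, fun h => h3 ⟨hxD, h⟩⟩
      · rintro ⟨h1, h2, h3⟩
        exact ⟨⟨h1, K.DG h2⟩, fun h => h3 h.2⟩
    rw [this]
    exact (isClosed_comp 𝓔 S w).inter (K.isClosed_cls_compl w)
  obtain ⟨hfin, hev⟩ := hPC S V d (fun v hv => hVG v hv) hPar w hwG (K.cls w) hclsG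
    (K.isClosed_cls w) hcl2
  set Ecr : Set ι := {i | i ∉ S ∧ 𝓔.c i ⊆ 𝓔.comp S w ∧ i ∈ 𝓔.cross (K.cls w)} with hEcr
  -- membership in the class
  have hmem : ∀ x ∈ K.D, (x ∈ K.cls w ↔ Relation.ReflTransGen K.Adj (K.q x) w) :=
    fun x hx => ⟨fun h => h.2, fun h => ⟨hx, h⟩⟩
  have hEJ : Ecr = ↑(J.filter (fun i => ¬ (𝓔.φ i 0 ∈ K.cls w ↔ 𝓔.φ i 1 ∈ K.cls w))) := by
    ext i
    simp only [Finset.coe_filter, mem_ofPred_eq]
    constructor
    · rintro ⟨h1, h2, h3⟩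
      refine ⟨?_, h3⟩
      have h0D : 𝓔.φ i 0 ∈ K.D := K.Dsat w hwD _ (φ0_mem_G 𝓔 i) (h2 (φ0_mem_c 𝓔 i))
      apply hJ2 i h1 h0D
      intro h
      apply h3
      rw [hmem _ h0D, hmem _ (K.edge_D h1 h0D).1]
      exact ⟨fun h' => (K.rtg_symm h).trans h', fun h' => h.trans h'⟩
    · rintro ⟨h1, h3⟩
      obtain ⟨hS, h0D⟩ := hJ i h1
      refine ⟨hS, ?_, h3⟩
      by_cases h0 : 𝓔.φ i 0 ∈ K.cls w
      · exact subset_comp 𝓔 (isPreconnected_c 𝓔 i) (c_subset_Y 𝓔 hS) (φ0_mem_c 𝓔 i)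
          (hclsG h0).1
      · have h1' : 𝓔.φ i 1 ∈ K.cls w := by
          by_contra hn
          exact h3 ⟨fun h => absurd h h0, fun h => absurd h hn⟩
        exact subset_comp 𝓔 (isPreconnected_c 𝓔 i) (c_subset_Y 𝓔 hS) (φ1_mem_c 𝓔 i)
          (hclsG h1').1
  rw [hEJ, Set.ncard_coe_finset] at hev
  rw [← ZMod.natCast_eq_zero_iff_even] at hev ⊢
  -- degrees
  have hdeg : ∀ v, (EdgeSys.degW (J.val.map (K.ew V)) v : ℕ) =
      ∑ i ∈ J, ((if K.q (𝓔.φ i 0) = v then 1 else 0) + (if K.q (𝓔.φ i 1) = v then 1 else 0)) := by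
    intro v
    unfold EdgeSys.degW
    rw [Multiset.countP_map, Multiset.countP_map]
    simp only [K.ew_fst V hVs, K.ew_snd V hVs]
    rw [Finset.sum_add_distrib, ← Finset.card_filter, ← Finset.card_filter]
    rfl
  rw [Finset.sum_add_distrib]
  push_cast
  have h1 : ∑ v ∈ K.W.filter (fun v => Relation.ReflTransGen K.Adj v w),
      (EdgeSys.degW (J.val.map (K.ew V)) v : ZMod 2) =
      ((J.filter (fun i => ¬ (𝓔.φ i 0 ∈ K.cls w ↔ 𝓔.φ i 1 ∈ K.cls w))).card : ZMod 2) := by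
    rw [Finset.card_filter]
    push_cast
    have : ∀ v ∈ K.W.filter (fun v => Relation.ReflTransGen K.Adj v w),
        (EdgeSys.degW (J.val.map (K.ew V)) v : ZMod 2) =
        ∑ i ∈ J, ((if K.q (𝓔.φ i 0) = v then 1 else 0) + (if K.q (𝓔.φ i 1) = v then 1 else 0)) := by
      intro v _
      rw [hdeg v]
      push_cast
      rfl
    rw [Finset.sum_congr rfl this, Finset.sum_comm]
    apply Finset.sum_congr rfl
    intro i hi
    obtain ⟨hS, h0D⟩ := hJ i hi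
    have h1D := (K.edge_D hS h0D).1
    rw [Finset.sum_add_distrib, Finset.sum_ite_eq, Finset.sum_ite_eq]
    simp only [Finset.mem_filter, K.qW _ h0D, K.qW _ h1D, true_and, hmem _ h0D, hmem _ h1D]
    by_cases a : Relation.ReflTransGen K.Adj (K.q (𝓔.φ i 0)) w <;>
      by_cases b : Relation.ReflTransGen K.Adj (K.q (𝓔.φ i 1)) w <;>
      simp only [a, b, if_true, if_false, not_true_eq_false, iff_self, iff_false, iff_true,
        not_false_eq_true] <;> decide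
  have h2 : ∑ v ∈ K.W.filter (fun v => Relation.ReflTransGen K.Adj v w), (d v : ZMod 2) =
      ((∑ v ∈ V, (K.cls w).indicator d v : ℕ) : ZMod 2) := by
    push_cast
    have e1 : ∑ v ∈ V, (((K.cls w).indicator d v : ℕ) : ZMod 2) =
        ∑ v ∈ V.filter (fun v => v ∈ K.cls w), (d v : ZMod 2) := by
      rw [Finset.sum_filter]
      apply Finset.sum_congr rfl
      intro v _
      by_cases h : v ∈ K.cls w
      · rw [Set.indicator_of_mem h]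
        simp [h]
      · rw [Set.indicator_of_notMem h]
        simp [h]
    rw [e1]
    symm
    apply Finset.sum_subset
    · intro v hv
      rw [Finset.mem_filter] at hv ⊢
      refine ⟨K.VsW _ (hVs hv.1), ?_⟩
      have := hv.2.2
      rw [K.q_of_Vs (hVs hv.1)] at this
      exact this
    · intro v hv hv'
      rw [Finset.mem_filter] at hv hv'
      have : v ∉ V := by
        intro hvV
        apply hv'
        refine ⟨hvV, K.WD _ hv.1, ?_⟩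
        rw [K.qq _ hv.1]
        exact hv.2
      rw [hd v this]
      rfl
  rw [h1, h2]
  push_cast at hev ⊢
  exact hev

end CellSys

end Pool.Agent.EU.H91
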