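import Pool.Agent.Helper91_EU.Basic

/-! # Cell systems: finite partitions of the ground space -/

open Set Metric Topology unitInterval

noncomputable section

namespace Pool.Agent.EU.H91

universe u v

variable {X : Type u} [MetricSpace X] {ι : Type v} (𝓔 : EdgeSys X ι)

/-- finite partition of a saturated closed part of the ground space into small cells -/
structure CellSys (S : Set ι) (ε : ℝ) where
  D : Set X
  W : Finset X
  Vs : Finset X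
  q : X → X
  Dcl : IsClosed D
  DG : D ⊆ 𝓔.G
  Dsat : ∀ x ∈ D, ∀ y ∈ 𝓔.G, y ∈ 𝓔.comp S x → y ∈ D
  qW : ∀ x ∈ D, q x ∈ W
  qcomp : ∀ x ∈ D, q x ∈ 𝓔.comp S x
  WD : ∀ w ∈ W, w ∈ D
  qq : ∀ w ∈ W, q w = w
  qsmall : ∀ x ∈ D, ∀ y ∈ D, q x = q y → dist x y ≤ ε
  VsW : ∀ v ∈ Vs, v ∈ W
  qVs : ∀ x ∈ D, q x ∈ Vs → q x = x

variable {𝓔}

namespace CellSys

variable {S : Set ι} {ε : ℝ} (K : CellSys 𝓔 S ε)

/-- cells -/
def cell (w : X) : Set X := {x | x ∈ K.D ∧ K.q x = w}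

/-- closures of cells -/
def cc (w : X) : Set X := closure (K.cell w)

/-- adjacency of cells -/
def Adj (w w' : X) : Prop := w ≠ w' ∧ (K.cc w ∩ K.cc w').Nonempty

theorem mem_cell_q {x : X} (hx : x ∈ K.D) : x ∈ K.cell (K.q x) := ⟨hx, rfl⟩

theorem mem_cc_q {x : X} (hx : x ∈ K.D) : x ∈ K.cc (K.q x) := subset_closure (K.mem_cell_q hx)

theorem cc_subset_D (w : X) : K.cc w ⊆ K.D := closure_minimal (fun _ h => h.1) K.Dcl

theorem mem_cell_W {w : X} (hw : w ∈ K.W) : w ∈ K.cell w := ⟨K.WD w hw, K.qq w hw⟩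

theorem W_of_cc {w y : X} (h : y ∈ K.cc w) : w ∈ K.W := by
  have : (K.cell w).Nonempty := by
    rw [← closure_nonempty_iff]
    exact ⟨y, h⟩
  obtain ⟨x, hx, hxw⟩ := this
  rw [← hxw]
  exact K.qW x hx

theorem small_cc {w y z : X} (hy : y ∈ K.cc w) (hz : z ∈ K.cc w) : dist y z ≤ ε := by
  have h1 : ∀ y ∈ K.cell w, ∀ z ∈ K.cc w, dist y z ≤ ε := by
    intro y hy z hz
    have hcl : IsClosed {z | dist y z ≤ ε} := isClosed_le (continuous_const.dist continuous_id) continuous_const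
    exact closure_minimal (fun z hz => K.qsmall y hy.1 z hz.1 (hy.2.trans hz.2.symm)) hcl hz
  have hcl : IsClosed {y | dist y z ≤ ε} := isClosed_le (continuous_id.dist continuous_const) continuous_const
  exact closure_minimal (fun y hy => h1 y hy z hz) hcl hy

theorem cell_comp {w x : X} (hx : x ∈ K.cell w) : x ∈ 𝓔.comp S w := by
  have h1 : K.q x ∈ 𝓔.comp S x := K.qcomp x hx.1
  have h2 := comp_eq 𝓔 h1
  rw [← hx.2, ← h2]
  exact mem_comp_self 𝓔 (G_subset_Y 𝓔 S (K.DG hx.1))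

theorem cc_comp {w x : X} (hx : x ∈ K.cc w) : x ∈ 𝓔.comp S w :=
  closure_minimal (fun _ h => K.cell_comp h) (isClosed_comp 𝓔 S w) hx

theorem adj_symm {w w' : X} (h : K.Adj w w') : K.Adj w' w :=
  ⟨h.1.symm, by rw [inter_comm]; exact h.2⟩

theorem adj_W {w w' : X} (h : K.Adj w w') : w ∈ K.W ∧ w' ∈ K.W := by
  obtain ⟨_, y, h1, h2⟩ := h
  exact ⟨K.W_of_cc h1, K.W_of_cc h2⟩

theorem adj_dist {w w' : X} (h : K.Adj w w') : dist w w' ≤ 2 * ε := by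
  have hW := K.adj_W h
  obtain ⟨_, y, h1, h2⟩ := h
  have e1 : dist w y ≤ ε := K.small_cc (subset_closure (K.mem_cell_W hW.1)) h1
  have e2 : dist y w' ≤ ε := K.small_cc h2 (subset_closure (K.mem_cell_W hW.2))
  calc dist w w' ≤ dist w y + dist y w' := dist_triangle _ _ _
    _ ≤ 2 * ε := by linarith

theorem adj_comp {w w' : X} (h : K.Adj w w') : w' ∈ 𝓔.comp S w := by
  have hW := K.adj_W h
  obtain ⟨_, y, h1, h2⟩ := h
  rw [comp_eq 𝓔 (K.cc_comp h1), ← comp_eq 𝓔 (K.cc_comp h2)]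
  exact mem_comp_self 𝓔 (G_subset_Y 𝓔 S (K.DG (K.WD _ hW.2)))

theorem adj_of_mem {w y : X} (hy : y ∈ K.cc w) : w = K.q y ∨ K.Adj w (K.q y) := by
  by_cases h : w = K.q y
  · exact Or.inl h
  · exact Or.inr ⟨h, y, hy, K.mem_cc_q (K.cc_subset_D w hy)⟩

/-- cells of special points are singletons -/
theorem cell_Vs {v : X} (hv : v ∈ K.Vs) : K.cell v = {v} := by
  ext x
  constructor
  · rintro ⟨h1, h2⟩
    have := K.qVs x h1 (h2 ▸ hv)
    rw [h2] at this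
    exact this.symm
  · rintro rfl
    exact K.mem_cell_W (K.VsW _ hv)

theorem cc_Vs {v : X} (hv : v ∈ K.Vs) : K.cc v = {v} := by
  unfold cc
  rw [K.cell_Vs hv, closure_singleton]

theorem not_adj_Vs {v v' : X} (hv : v ∈ K.Vs) (hv' : v' ∈ K.Vs) : ¬ K.Adj v v' := by
  rintro ⟨h1, y, h2, h3⟩
  rw [K.cc_Vs hv] at h2
  rw [K.cc_Vs hv'] at h3
  exact h1 (h2.symm.trans h3)

theorem rtg_symm {w w' : X} (h : Relation.ReflTransGen K.Adj w w') :
    Relation.ReflTransGen K.Adj w' w := by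
  induction h with
  | refl => exact Relation.ReflTransGen.refl
  | tail _ h2 ih => exact Relation.ReflTransGen.head (K.adj_symm h2) ih

theorem rtg_comp {w w' : X} (hw : w ∈ K.W) (h : Relation.ReflTransGen K.Adj w w') :
    w' ∈ 𝓔.comp S w := by
  induction h with
  | refl => exact mem_comp_self 𝓔 (G_subset_Y 𝓔 S (K.DG (K.WD _ hw)))
  | tail _ h2 ih =>
    rw [comp_eq 𝓔 ih]
    exact K.adj_comp h2

theorem rtg_W {w w' : X} (hw : w ∈ K.W) (h : Relation.ReflTransGen K.Adj w w') : w' ∈ K.W := by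
  cases h with
  | refl => exact hw
  | tail _ h2 => exact (K.adj_W h2).2

/-- union of the cells in the class of `w` -/
def cls (w : X) : Set X := {x | x ∈ K.D ∧ Relation.ReflTransGen K.Adj (K.q x) w}

theorem isClosed_union_cc (T : Set X) (hT : ∀ w w', w ∈ T → K.Adj w w' → w' ∈ T) :
    IsClosed {x | x ∈ K.D ∧ K.q x ∈ T} := by
  classical
  have : {x | x ∈ K.D ∧ K.q x ∈ T} = ⋃ w ∈ {w | w ∈ K.W ∧ w ∈ T}, K.cc w := by
    ext x
    simp only [Set.mem_ofPred_eq, mem_iUnion]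
    constructor
    · rintro ⟨h1, h2⟩
      exact ⟨K.q x, ⟨K.qW x h1, h2⟩, K.mem_cc_q h1⟩
    · rintro ⟨w, ⟨_, h2⟩, h3⟩
      refine ⟨K.cc_subset_D w h3, ?_⟩
      rcases K.adj_of_mem h3 with h | h
      · rw [← h]; exact h2
      · exact hT _ _ h2 h
  rw [this]
  apply Set.Finite.isClosed_biUnion
  · exact K.W.finite_toSet.subset (fun w hw => hw.1)
  · intro w _
    exact isClosed_closure

theorem isClosed_cls (w : X) : IsClosed (K.cls w) := by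
  apply K.isClosed_union_cc {w' | Relation.ReflTransGen K.Adj w' w}
  intro a b ha hab
  exact Relation.ReflTransGen.head (K.adj_symm hab) ha

theorem isClosed_cls_compl (w : X) : IsClosed {x | x ∈ K.D ∧ ¬ Relation.ReflTransGen K.Adj (K.q x) w} := by
  apply K.isClosed_union_cc {w' | ¬ Relation.ReflTransGen K.Adj w' w}
  intro a b ha hab h
  exact ha (Relation.ReflTransGen.head hab h)

theorem mem_D_comp {x : X} (hx : x ∈ K.D) {y : X} (hy : y ∈ 𝓔.G) (h : y ∈ 𝓔.comp S x) : y ∈ K.D :=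
  K.Dsat x hx y hy h

/-! ## reachability along connected sets -/

/-- one step along `C` -/
def Rel (C : Set X) (w w' : X) : Prop :=
  (K.cell w ∩ C).Nonempty ∧ (K.cell w' ∩ C).Nonempty ∧
    (K.Adj w w' ∨ ∃ i, i ∉ S ∧ 𝓔.φ i 0 ∈ C ∧ 𝓔.φ i 1 ∈ C ∧
      ((K.q (𝓔.φ i 0) = w ∧ K.q (𝓔.φ i 1) = w') ∨ (K.q (𝓔.φ i 0) = w' ∧ K.q (𝓔.φ i 1) = w)))

theorem rel_symm {C : Set X} {w w' : X} (h : K.Rel C w w') : K.Rel C w' w := by
  obtain ⟨h1, h2, h3⟩ := h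
  refine ⟨h2, h1, ?_⟩
  rcases h3 with h | ⟨i, a, b, c, h⟩
  · exact Or.inl (K.adj_symm h)
  · exact Or.inr ⟨i, a, b, c, h.symm⟩

/-- a closed connected set meeting an open edge and the ground space contains an end of the edge -/
theorem end_mem_of_meet {C : Set X} (hC : IsPreconnected C) (i : ι) (h1 : (C ∩ 𝓔.o i).Nonempty)
    (h2 : (C ∩ 𝓔.G).Nonempty) : 𝓔.φ i 0 ∈ C ∨ 𝓔.φ i 1 ∈ C := by
  by_contra hn
  push Not at hn
  have hcov : C ⊆ 𝓔.o i ∪ (𝓔.c i)ᶜ := by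
    intro x hx
    by_cases h : x ∈ 𝓔.c i
    · left
      rw [c_eq] at h
      rcases h with h | h
      · exact h
      · rcases h with h | h
        · exact absurd (h ▸ hx) hn.1
        · exact absurd (h ▸ hx) hn.2
    · exact Or.inr h
  obtain ⟨g, hgC, hgG⟩ := h2
  have hg : g ∈ (𝓔.c i)ᶜ := by
    intro h
    rcases c_inter_G 𝓔 i g h hgG with h | h
    · exact hn.1 (h ▸ hgC)
    · exact hn.2 (h ▸ hgC)
  obtain ⟨z, _, hz1, hz2⟩ := hC (𝓔.o i) (𝓔.c i)ᶜ (isOpen_o 𝓔 i) (isClosed_c 𝓔 i).isOpen_compl hcov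
    h1 ⟨g, hgC, hg⟩
  exact hz2 (o_subset_c 𝓔 i hz1)

theorem reach (hN : 𝓔.NullStmt) {C : Set X} (hC : IsPreconnected C)
    (hCY : C ⊆ 𝓔.Y S) {a b : X} (haD : a ∈ K.D) (ha : a ∈ C) (hb : b ∈ C) (hbG : b ∈ 𝓔.G) :
    Relation.ReflTransGen (K.Rel C) (K.q a) (K.q b) := by
  classical
  -- ground points of C are in D
  have hCD : ∀ x ∈ C, x ∈ 𝓔.G → x ∈ K.D := by
    intro x hx hxG
    refine K.Dsat a haD x hxG ?_
    exact subset_comp 𝓔 hC hCY ha (mem_comp_self 𝓔 (hCY ha)) hx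
  have hcm : ∀ x ∈ C, x ∈ 𝓔.G → (K.cell (K.q x) ∩ C).Nonempty := fun x hx hxG =>
    ⟨x, K.mem_cell_q (hCD x hx hxG), hx⟩
  set Rc := {w | Relation.ReflTransGen (K.Rel C) (K.q a) w} with hRc
  have hRcm : ∀ w ∈ Rc, (K.cell w ∩ C).Nonempty := by
    intro w hw
    cases hw with
    | refl => exact hcm a ha (K.DG haD)
    | tail _ h => exact h.2.1
  -- the cells meeting C outside Rc
  set Nc := {w | (K.cell w ∩ C).Nonempty ∧ w ∉ Rc} with hNc
  have hadj : ∀ w ∈ Rc, ∀ w' ∈ Nc, ¬ (K.cc w ∩ K.cc w').Nonempty := by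
    rintro w hw w' ⟨hw'1, hw'2⟩ hne
    by_cases hww : w = w'
    · exact hw'2 (hww ▸ hw)
    · exact hw'2 (Relation.ReflTransGen.tail hw ⟨hRcm w hw, hw'1, Or.inl ⟨hww, hne⟩⟩)
  have hedge : ∀ i, i ∉ S → 𝓔.φ i 0 ∈ C → 𝓔.φ i 1 ∈ C →
      (K.q (𝓔.φ i 0) ∈ Rc ↔ K.q (𝓔.φ i 1) ∈ Rc) := by
    intro i hi h0 h1
    have m0 := hcm _ h0 (φ0_mem_G 𝓔 i)
    have m1 := hcm _ h1 (φ1_mem_G 𝓔 i)
    constructor
    · intro h
      exact Relation.ReflTransGen.tail h ⟨m0, m1, Or.inr ⟨i, hi, h0, h1, Or.inl ⟨rfl, rfl⟩⟩⟩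
    · intro h
      exact Relation.ReflTransGen.tail h ⟨m1, m0, Or.inr ⟨i, hi, h0, h1, Or.inr ⟨rfl, rfl⟩⟩⟩
  -- any two ends of an edge outside S lying in C have the same status
  have hedge' : ∀ i, i ∉ S → ∀ s t : I, (s = 0 ∨ s = 1) → (t = 0 ∨ t = 1) → 𝓔.φ i s ∈ C →
      𝓔.φ i t ∈ C → K.q (𝓔.φ i s) ∈ Rc → K.q (𝓔.φ i t) ∈ Rc := by
    intro i hi s t hs ht h1 h2 h3
    rcases hs with rfl | rfl <;> rcases ht with rfl | rfl
    · exact h3
    · exact (hedge i hi h1 h2).1 h3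
    · exact (hedge i hi h2 h1).2 h3
    · exact h3
  -- status of ground points of C
  have hst : ∀ x ∈ C, x ∈ 𝓔.G → K.q x ∈ Rc ∨ K.q x ∈ Nc := by
    intro x hx hxG
    by_cases h : K.q x ∈ Rc
    · exact Or.inl h
    · exact Or.inr ⟨hcm x hx hxG, h⟩
  -- closed sets
  set WA : Set X := ⋃ w ∈ {w | w ∈ K.W ∧ w ∈ Rc}, K.cc w with hWA
  set WB : Set X := ⋃ w ∈ {w | w ∈ K.W ∧ w ∈ Nc}, K.cc w with hWB
  have hWAc : IsClosed WA := by
    apply Set.Finite.isClosed_biUnion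
    · exact K.W.finite_toSet.subset (fun w hw => hw.1)
    · intro w _
      exact isClosed_closure
  have hWBc : IsClosed WB := by
    apply Set.Finite.isClosed_biUnion
    · exact K.W.finite_toSet.subset (fun w hw => hw.1)
    · intro w _
      exact isClosed_closure
  set IA : Set ι := {i | i ∉ S ∧ ∃ t : I, (t = 0 ∨ t = 1) ∧ 𝓔.φ i t ∈ C ∧ K.q (𝓔.φ i t) ∈ Rc} with hIA
  set IB : Set ι := {i | i ∉ S ∧ ∃ t : I, (t = 0 ∨ t = 1) ∧ 𝓔.φ i t ∈ C ∧ K.q (𝓔.φ i t) ∈ Nc} with hIB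
  have hendD : ∀ i (t : I), (t = 0 ∨ t = 1) → 𝓔.φ i t ∈ C → 𝓔.φ i t ∈ K.D :=
    fun i t ht h => hCD _ h (end_mem_G 𝓔 i t ht)
  have hPA : IsClosed (WA ∪ ⋃ i ∈ IA, 𝓔.c i) := by
    apply isClosed_union_edges 𝓔 hN WA hWAc
    rintro i ⟨_, t, ht, htC, htR⟩
    refine ⟨𝓔.φ i t, ⟨t, rfl⟩, ?_⟩
    simp only [hWA, mem_iUnion]
    exact ⟨_, ⟨K.qW _ (hendD i t ht htC), htR⟩, K.mem_cc_q (hendD i t ht htC)⟩
  have hPB : IsClosed (WB ∪ ⋃ i ∈ IB, 𝓔.c i) := by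
    apply isClosed_union_edges 𝓔 hN WB hWBc
    rintro i ⟨_, t, ht, htC, htR⟩
    refine ⟨𝓔.φ i t, ⟨t, rfl⟩, ?_⟩
    simp only [hWB, mem_iUnion]
    exact ⟨_, ⟨K.qW _ (hendD i t ht htC), htR⟩, K.mem_cc_q (hendD i t ht htC)⟩
  have hcov : C ⊆ (WA ∪ ⋃ i ∈ IA, 𝓔.c i) ∪ (WB ∪ ⋃ i ∈ IB, 𝓔.c i) := by
    intro x hx
    by_cases hxG : x ∈ 𝓔.G
    · have hxD := hCD x hx hxG
      rcases hst x hx hxG with h | h
      · left; left
        simp only [hWA, mem_iUnion]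
        exact ⟨_, ⟨K.qW x hxD, h⟩, K.mem_cc_q hxD⟩
      · right; left
        simp only [hWB, mem_iUnion]
        exact ⟨_, ⟨K.qW x hxD, h⟩, K.mem_cc_q hxD⟩
    · obtain ⟨i, hi⟩ := not_mem_G 𝓔 x hxG
      have hiS : i ∉ S := fun h => (mem_Y_iff 𝓔 S x).1 (hCY hx) i h hi
      have key : ∀ t : I, (t = 0 ∨ t = 1) → 𝓔.φ i t ∈ C →
          x ∈ (WA ∪ ⋃ i ∈ IA, 𝓔.c i) ∪ (WB ∪ ⋃ i ∈ IB, 𝓔.c i) := by
        intro t ht htC
        rcases hst _ htC (end_mem_G 𝓔 i t ht) with h | h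
        · left; right
          simp only [mem_iUnion]
          exact ⟨i, ⟨hiS, t, ht, htC, h⟩, o_subset_c 𝓔 i hi⟩
        · right; right
          simp only [mem_iUnion]
          exact ⟨i, ⟨hiS, t, ht, htC, h⟩, o_subset_c 𝓔 i hi⟩
      rcases end_mem_of_meet hC i ⟨x, hx, hi⟩ ⟨a, ha, K.DG haD⟩ with h | h
      · exact key 0 (Or.inl rfl) h
      · exact key 1 (Or.inr rfl) h
  -- ground points of C in the two sets
  have hgA : ∀ x ∈ C, x ∈ 𝓔.G → x ∈ WA ∪ ⋃ i ∈ IA, 𝓔.c i → K.q x ∈ Rc := by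
    intro x hx hxG h
    rcases h with h | h
    · simp only [hWA, mem_iUnion] at h
      obtain ⟨w, ⟨_, hw⟩, hxw⟩ := h
      rcases hst x hx hxG with h | h
      · exact h
      · exact absurd ⟨x, hxw, K.mem_cc_q (hCD x hx hxG)⟩ (hadj w hw _ h)
    · simp only [mem_iUnion] at h
      obtain ⟨i, ⟨hiS, t, ht, htC, htR⟩, hxi⟩ := h
      rcases c_inter_G 𝓔 i x hxi hxG with h | h
      · subst h
        exact hedge' i hiS t 0 ht (Or.inl rfl) htC hx htR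
      · subst h
        exact hedge' i hiS t 1 ht (Or.inr rfl) htC hx htR
  have hgB : ∀ x ∈ C, x ∈ 𝓔.G → x ∈ WB ∪ ⋃ i ∈ IB, 𝓔.c i → K.q x ∉ Rc := by
    intro x hx hxG h
    rcases h with h | h
    · simp only [hWB, mem_iUnion] at h
      obtain ⟨w, ⟨_, hw⟩, hxw⟩ := h
      intro hh
      exact hadj _ hh w hw ⟨x, K.mem_cc_q (hCD x hx hxG), hxw⟩
    · simp only [mem_iUnion] at h
      obtain ⟨i, ⟨hiS, t, ht, htC, htR⟩, hxi⟩ := h
      intro hh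
      rcases c_inter_G 𝓔 i x hxi hxG with h | h
      · subst h
        exact htR.2 (hedge' i hiS 0 t (Or.inl rfl) ht hx htC hh)
      · subst h
        exact htR.2 (hedge' i hiS 1 t (Or.inr rfl) ht hx htC hh)
  have hdis : ∀ x ∈ C, x ∈ WA ∪ ⋃ i ∈ IA, 𝓔.c i → x ∉ WB ∪ ⋃ i ∈ IB, 𝓔.c i := by
    intro x hx hA hB
    by_cases hxG : x ∈ 𝓔.G
    · exact hgB x hx hxG hB (hgA x hx hxG hA)
    · obtain ⟨j, hj⟩ := not_mem_G 𝓔 x hxG
      have hWG : ∀ w, K.cc w ⊆ 𝓔.G := fun w => (K.cc_subset_D w).trans K.DG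
      have hA' : ∃ i ∈ IA, x ∈ 𝓔.c i := by
        rcases hA with h | h
        · simp only [hWA, mem_iUnion] at h
          obtain ⟨w, _, hxw⟩ := h
          exact absurd (hWG w hxw) hxG
        · simp only [mem_iUnion] at h
          obtain ⟨i, hi, hxi⟩ := h
          exact ⟨i, hi, hxi⟩
      have hB' : ∃ i ∈ IB, x ∈ 𝓔.c i := by
        rcases hB with h | h
        · simp only [hWB, mem_iUnion] at h
          obtain ⟨w, _, hxw⟩ := h
          exact absurd (hWG w hxw) hxG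
        · simp only [mem_iUnion] at h
          obtain ⟨i, hi, hxi⟩ := h
          exact ⟨i, hi, hxi⟩
      obtain ⟨i, hi, hxi⟩ := hA'
      obtain ⟨i', hi', hxi'⟩ := hB'
      have e1 : i = j := by
        by_contra h
        exact Set.disjoint_left.1 (c_disj_o 𝓔 h) hxi hj
      have e2 : i' = j := by
        by_contra h
        exact Set.disjoint_left.1 (c_disj_o 𝓔 h) hxi' hj
      subst e1
      subst e2
      obtain ⟨hiS, t, ht, htC, htR⟩ := hi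
      obtain ⟨_, t', ht', htC', htR'⟩ := hi'
      exact htR'.2 (hedge' _ hiS t t' ht ht' htC htC' htR)
  have hbin : K.q b ∈ Rc := by
    by_contra hbn
    have hbD := hCD b hb hbG
    have hpre := hC
    rw [isPreconnected_closed_iff] at hpre
    obtain ⟨z, hzC, hz1, hz2⟩ := hpre _ _ hPA hPB hcov
      ⟨a, ha, Or.inl (by
        simp only [hWA, mem_iUnion]
        exact ⟨_, ⟨K.qW a haD, Relation.ReflTransGen.refl⟩, K.mem_cc_q haD⟩)⟩
      ⟨b, hb, Or.inl (by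
        simp only [hWB, mem_iUnion]
        exact ⟨_, ⟨K.qW b hbD, ⟨b, K.mem_cell_q hbD, hb⟩, hbn⟩, K.mem_cc_q hbD⟩)⟩
    exact hdis z hzC hz1 hz2
  exact hbin

end CellSys

end Pool.Agent.EU.H91
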